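import Pool.Agent.helper35.FO.Spec

/-!
# Row fo:CLW (MP_a2a22c_al)
-/

set_option autoImplicit false

namespace Pool.Agent.FO

open Matrix Pool.Agent.H48SL Pool.Agent.UG Pool.Agent.LV

theorem CLW_trans {S : Set (MQ 3)} (hS : IsGrp S) {A B C : MQ 3} (h1 : Rel S A B) (h2 : Rel S B C) : Rel S A C := by
  obtain ⟨x, hx, rfl⟩ := h1
  obtain ⟨y, hy, rfl⟩ := h2
  exact ⟨y * x, hS.2.1 _ hy _ hx, by rw [mul_assoc]⟩

theorem CLW_comm {X Z : MQ 3} (h1 : X * Z = 0) (h2 : Z * X = 0) (r s : ℚ) : tx X r * tx Z s = tx Z s * tx X r := by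
  unfold tx
  simp only [mul_add, add_mul, mul_one, one_mul, smul_mul_assoc, mul_smul_comm, h1, h2, smul_zero, add_zero]
  abel

theorem CLW_add {X : MQ 3} (h : X * X = 0) (r s : ℚ) : tx X r * tx X s = tx X (r + s) := by
  unfold tx
  simp only [mul_add, add_mul, mul_one, one_mul, smul_mul_assoc, mul_smul_comm, h, smul_zero, add_zero, add_smul]
  abel

theorem CLW_zero (X : MQ 3) : tx X 0 = 1 := by
  unfold tx
  simp

theorem CLW (hSTP : STP_stmt) (hHXG : HXG_stmt) : CLW_stmt := by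
  intro S hS X δ δ' a c e hT hδ ha hc hu L hL hL0 hL1
  obtain ⟨α, hα⟩ : ∃ α : ℕ → ℚ, α = fun t => -(c t / a t) := ⟨_, rfl⟩
  obtain ⟨κ, hκ⟩ : ∃ κ : ℕ → ℚ, κ = fun t => c t * (δ' t - δ t) / (2 * a t) := ⟨_, rfl⟩
  obtain ⟨l, hl⟩ : ∃ l : ℕ → ℚ, l = fun t => c t * (δ t + δ' t) / 2 - e t / a t := ⟨_, rfl⟩
  have hα0 : ∀ t, α t ≠ 0 := by
    intro t
    rw [hα]
    exact neg_ne_zero.2 (div_ne_zero (hc t) (ha t))
  have hκ0 : ∀ t, κ t ≠ 0 := by
    intro t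
    rw [hκ]
    exact div_ne_zero (mul_ne_zero (hc t) (sub_ne_zero.2 (hδ t).symm)) (mul_ne_zero two_ne_zero (ha t))
  obtain ⟨D, hD, hdiv, s₁, s₂, hs⟩ := hHXG L hL α κ l a hα0 hκ0 ha
  have key : ∀ s : ℤ, ∀ t : ℕ, t ≤ L → Rel S (tx (X 0) ((D : ℚ) * s))
      (tx (X t) (((AB α κ l t).2).eval ((D : ℚ) * s)) * tx (X (t + 1)) (((AB α κ l t).1).eval ((D : ℚ) * s))) := by
    intro s t
    induction t with
    | zero =>
      intro _
      refine ⟨1, hS.1, ?_⟩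
      have h1 : ((AB α κ l 0).2).eval ((D : ℚ) * s) = (D : ℚ) * s := by simp [AB]
      have h2 : ((AB α κ l 0).1).eval ((D : ℚ) * s) = 0 := by simp [AB]
      rw [h1, h2, CLW_zero, mul_one, mul_one]
    | succ t ih =>
      intro ht
      refine CLW_trans hS (ih (by omega)) ?_
      obtain ⟨m, hm⟩ := hdiv s t (by omega)
      have h1 := hSTP S hS (X t) (X (t + 1)) (X (t + 2)) (δ t) (δ' t) (hT t) (a t) (c t) (e t) (ha t) (hu t) m
        (((AB α κ l t).2).eval ((D : ℚ) * s)) (((AB α κ l t).1).eval ((D : ℚ) * s)) hm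
      have h2 : ((AB α κ l (t + 1)).1).eval ((D : ℚ) * s) =
          -(c t / a t) * ((AB α κ l t).2).eval ((D : ℚ) * s) := by
        rw [show -(c t / a t) = α t by rw [hα]]
        simp [AB]
      have h3 : ((AB α κ l (t + 1)).2).eval ((D : ℚ) * s) =
          ((AB α κ l t).1).eval ((D : ℚ) * s) + c t * (δ' t - δ t) / (2 * a t) * (((AB α κ l t).2).eval ((D : ℚ) * s)) ^ 2 +
            (c t * (δ t + δ' t) / 2 - e t / a t) * ((AB α κ l t).2).eval ((D : ℚ) * s) := by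
        rw [show c t * (δ' t - δ t) / (2 * a t) = κ t by rw [hκ],
          show c t * (δ t + δ' t) / 2 - e t / a t = l t by rw [hl]]
        simp [AB]
      obtain ⟨_, _, _, _, _, hYZ, hZY, _, _⟩ := hT t
      have h4 : tx (X (t + 1)) (((AB α κ l (t + 1)).2).eval ((D : ℚ) * s)) *
          tx (X (t + 1 + 1)) (((AB α κ l (t + 1)).1).eval ((D : ℚ) * s)) =
          tx (X (t + 2)) (((AB α κ l (t + 1)).1).eval ((D : ℚ) * s)) *
            tx (X (t + 1)) (((AB α κ l (t + 1)).2).eval ((D : ℚ) * s)) := CLW_comm hZY hYZ _ _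
      rw [h4, h2, h3]
      exact h1
  have hX0 : X 0 * X 0 = 0 := (hT 0).1
  have hX1 : X 1 * X 1 = 0 := (hT 0).2.2.1
  have h01 : X 0 * X 1 = 0 := (hT 0).2.2.2.1
  have h10 : X 1 * X 0 = 0 := (hT 0).2.2.2.2.1
  have fin : ∀ s : ℤ, tx (X 0) ((D : ℚ) * s - ((AB α κ l L).2).eval ((D : ℚ) * s)) *
      tx (X 1) (-((AB α κ l L).1).eval ((D : ℚ) * s)) ∈ S := by
    intro s
    obtain ⟨C, hC, hCe⟩ := key s L (le_refl L)
    rw [hL0, hL1] at hCe
    have h1 : tx (X 0) ((D : ℚ) * s - ((AB α κ l L).2).eval ((D : ℚ) * s)) *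
        tx (X 1) (-((AB α κ l L).1).eval ((D : ℚ) * s)) = C := by
      have h2 : tx (X 0) (-((AB α κ l L).2).eval ((D : ℚ) * s)) * tx (X 1) (-((AB α κ l L).1).eval ((D : ℚ) * s)) *
          tx (X 0) ((D : ℚ) * s) = C := by
        rw [hCe, ← mul_assoc, mul_assoc (tx (X 0) (-((AB α κ l L).2).eval ((D : ℚ) * s))),
          ← mul_assoc (tx (X 1) (-((AB α κ l L).1).eval ((D : ℚ) * s))),
          CLW_comm h10 h01, ← mul_assoc, ← mul_assoc, CLW_add hX0, mul_assoc (tx (X 0) _) (tx (X 1) _),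
          CLW_add hX1, neg_add_cancel, neg_add_cancel, CLW_zero, CLW_zero, one_mul, one_mul]
      rw [← h2, mul_assoc, CLW_comm h10 h01, ← mul_assoc, CLW_add hX0]
      congr 2
      ring
    rw [h1]
    exact hC
  refine ⟨_, _, _, _, ?_, fin s₁, fin s₂⟩
  intro h
  apply hs
  linear_combination -h

end Pool.Agent.FO
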