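import Pool.Agent.helper35.FO.Spec
import Pool.Agent.helper43.LV.HX3

/-!
# Row fo:HXG (MP_a2a22c_al)
-/

set_option autoImplicit false

namespace Pool.Agent.FO

open Matrix Pool.Agent.H48SL Pool.Agent.UG Pool.Agent.LV

theorem HXG : HXG_stmt := by
  intro L hL α κ l γ hα hκ hγ
  obtain ⟨K, rfl⟩ : ∃ K, L = K + 1 := ⟨L - 1, by omega⟩
  have h0 : ∀ t, ∃ D : ℕ, 1 ≤ D ∧ ∀ (k : ℕ) (s : ℤ), ∃ m : ℤ,
      (AB α κ l t).2.eval (((D * k : ℕ) : ℚ) * s) = m * γ t := fun t =>
    HX3_den2 (γ t) (hγ t) _ (HX3_zero α κ l t).2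
  choose d hd1 hd2 using h0
  have hD0 : 1 ≤ ∏ t ∈ Finset.range (K + 1), d t := Nat.one_le_iff_ne_zero.2
    (Finset.prod_ne_zero_iff.2 fun t _ => Nat.one_le_iff_ne_zero.1 (hd1 t))
  refine ⟨∏ t ∈ Finset.range (K + 1), d t, hD0, ?_, ?_⟩
  · intro s t ht
    obtain ⟨k, hk⟩ := Finset.dvd_prod_of_mem d (Finset.mem_range.2 ht)
    rw [hk]
    exact hd2 t k s
  · obtain ⟨D, hD⟩ : ∃ D : ℕ, D = ∏ t ∈ Finset.range (K + 1), d t := ⟨_, rfl⟩
    rw [← hD]
    have hD1 : 1 ≤ D := by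
      rw [hD]
      exact hD0
    by_contra hcon
    push Not at hcon
    have hB := (HX3_deg α κ l hα hκ (K + 1)).1
    have hlt : 2 ^ K < 2 ^ (K + 1) := Nat.pow_lt_pow_right (by norm_num) (by omega)
    have hge : 2 ≤ 2 ^ (K + 1) := by
      have h := Nat.one_le_two_pow (n := K)
      rw [pow_succ]
      omega
    have hA : (AB α κ l (K + 1)).1.natDegree = 2 ^ K := by
      show (Polynomial.C (α K) * (AB α κ l K).2).natDegree = 2 ^ K
      rw [Polynomial.natDegree_C_mul (hα K), (HX3_deg α κ l hα hκ K).1]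
    have hA0 : (AB α κ l (K + 1)).1 ≠ 0 := by
      intro h
      rw [h, Polynomial.natDegree_zero] at hA
      have := Nat.one_le_two_pow (n := K)
      omega
    obtain ⟨s₂, hs₂⟩ : ∃ s₂ : ℤ, (AB α κ l (K + 1)).1.eval ((D : ℚ) * s₂) ≠ 0 := by
      by_contra h
      push Not at h
      exact hA0 (HX3_van D hD1 _ h)
    have hF := HX3_van D hD1 ((AB α κ l (K + 1)).1 *
        Polynomial.C ((AB α κ l (K + 1)).2.eval ((D : ℚ) * s₂) - D * s₂) -
      Polynomial.C ((AB α κ l (K + 1)).1.eval ((D : ℚ) * s₂)) * ((AB α κ l (K + 1)).2 - Polynomial.X)) (by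
        intro s
        have h1 := hcon s s₂
        simp only [Polynomial.eval_sub, Polynomial.eval_mul, Polynomial.eval_C, Polynomial.eval_X]
        linarith)
    have h2 := congrArg (fun P : Polynomial ℚ => P.coeff (2 ^ (K + 1))) hF
    simp only [Polynomial.coeff_sub, Polynomial.coeff_mul_C, Polynomial.coeff_C_mul, Polynomial.coeff_zero] at h2
    have h3 : (AB α κ l (K + 1)).1.coeff (2 ^ (K + 1)) = 0 :=
      Polynomial.coeff_eq_zero_of_natDegree_lt (by rw [hA]; exact hlt)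
    have h4 : (Polynomial.X : Polynomial ℚ).coeff (2 ^ (K + 1)) = 0 := by
      rw [Polynomial.coeff_X, if_neg (by omega)]
    have h5 : (AB α κ l (K + 1)).2.coeff (2 ^ (K + 1)) ≠ 0 := by
      rw [← hB]
      have h7 : (AB α κ l (K + 1)).2 ≠ 0 := by
        intro h
        rw [h, Polynomial.natDegree_zero] at hB
        omega
      exact Polynomial.leadingCoeff_ne_zero.2 h7
    rw [h3, h4, zero_mul, sub_zero, zero_sub, neg_eq_zero] at h2
    exact (mul_ne_zero hs₂ h5) h2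

end Pool.Agent.FO
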