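import Pool.Agent.helper35.FO.UF

/-!
# Row fo:REG (MP_a2a22c_al): structure of regular unipotents
-/

set_option autoImplicit false

namespace Pool.Agent.FO

open Matrix Pool.Agent.H48SL Pool.Agent.UG Pool.Agent.LV

/-- a nonzero integral vector is a multiple of a primitive one -/
theorem REG_prim {v : Fin 3 → ℤ} (hv : v ≠ 0) : ∃ (d : ℤ) (w x : Fin 3 → ℤ), d ≠ 0 ∧ v = d • w ∧ x ⬝ᵥ w = 1 := by
  classical
  obtain ⟨r, hr⟩ := Function.ne_iff.1 hv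
  -- the ideal generated by the entries
  obtain ⟨d, hd⟩ : ∃ d : ℤ, Ideal.span (Set.range v) = Ideal.span {d} :=
    (IsPrincipalIdealRing.principal (Ideal.span (Set.range v))).principal
  have hdv : ∀ i, d ∣ v i := fun i => by
    rw [← Ideal.mem_span_singleton, ← hd]
    exact Ideal.subset_span ⟨i, rfl⟩
  have hd0 : d ≠ 0 := by
    rintro rfl
    exact hr (by simpa using hdv r)
  choose w hw using hdv
  have hmem : d ∈ Ideal.span (Set.range v) := by rw [hd]; exact Ideal.mem_span_singleton_self d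
  obtain ⟨x, hx⟩ := (Ideal.mem_span_range_iff_exists_fun).1 hmem
  refine ⟨d, w, x, hd0, funext fun i => by rw [hw i]; rfl, ?_⟩
  have h1 : d * (x ⬝ᵥ w) = d * 1 := by
    rw [mul_one]
    nth_rewrite 2 [← hx]
    rw [dotProduct, Finset.mul_sum]
    refine Finset.sum_congr rfl fun i _ => ?_
    rw [hw i]
    ring
  exact mul_left_cancel₀ hd0 h1

theorem REG_sub {u : SLZ 3} {w : Fin 3 → ℤ} : w ∈ FixV u ↔ ((u : Matrix (Fin 3) (Fin 3) ℤ) - 1) *ᵥ w = 0 := by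
  show (u : Matrix (Fin 3) (Fin 3) ℤ) *ᵥ w = w ↔ _
  rw [sub_mulVec, one_mulVec, sub_eq_zero]

theorem REG_subR {u : SLZ 3} {f : Fin 3 → ℤ} (h : f ∈ FixR u) : f ᵥ* ((u : Matrix (Fin 3) (Fin 3) ℤ) - 1) = 0 := by
  have h1 : f ᵥ* (u : Matrix (Fin 3) (Fin 3) ℤ) = f := h
  rw [vecMul_sub, vecMul_one, h1, sub_self]

theorem REG_dep {u : SLZ 3} (hu : RegU u) {v w : Fin 3 → ℤ} (hv : v ∈ FixV u) (hw : w ∈ FixV u) : ¬ Indep v w := by
  intro hi
  obtain ⟨hN3, hN2⟩ := UF_nil hu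
  have hc := UF_cr_ne hi
  have hV : (qg u - 1) *ᵥ castV v = 0 := by
    have h1 : (u : Matrix (Fin 3) (Fin 3) ℤ) *ᵥ v = v := hv
    rw [sub_mulVec, one_mulVec, qg_mulVec_castV, h1, sub_self]
  have hW : (qg u - 1) *ᵥ castV w = 0 := by
    have h1 : (u : Matrix (Fin 3) (Fin 3) ℤ) *ᵥ w = w := hw
    rw [sub_mulVec, one_mulVec, qg_mulVec_castV, h1, sub_self]
  have h1 : ∀ i : Fin 3, ∃ k : ℚ, (qg u - 1) i = k • castV (L3A_cr v w) := fun i =>
    L3A_prop v w hc ((qg u - 1) i) (congrFun hV i) (congrFun hW i)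
  choose k hk using h1
  have h2 : qg u - 1 = vecMulVec k (castV (L3A_cr v w)) := by
    ext i j
    rw [vecMulVec_apply, hk i]
    rfl
  have h3 : (qg u - 1) * (qg u - 1) = (castV (L3A_cr v w) ⬝ᵥ k) • (qg u - 1) := by
    rw [h2, vecMulVec_mul_vecMulVec]
    ext i j
    simp only [vecMulVec_apply, Matrix.smul_apply, Pi.smul_apply, smul_eq_mul]
    ring
  have h4 : castV (L3A_cr v w) ⬝ᵥ k = 0 := by
    by_contra h5
    rw [pow_succ, pow_two, h3, smul_mul_assoc, h3, smul_smul] at hN3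
    rcases smul_eq_zero.1 hN3 with h6 | h6
    · exact h5 (mul_self_eq_zero.1 h6)
    · exact hN2 (by rw [h6, zero_pow two_ne_zero])
  exact hN2 (by rw [pow_two, h3, h4, zero_smul])

theorem REG_col {u : SLZ 3} (hu : RegU u) : ∃ v x : Fin 3 → ℤ, x ⬝ᵥ v = 1 ∧
    (∀ w, w ∈ FixV u ↔ ∃ a : ℤ, w = a • v) ∧ ∀ f ∈ FixR u, f ⬝ᵥ v = 0 := by
  obtain ⟨N, hN⟩ : ∃ N, N = (u : Matrix (Fin 3) (Fin 3) ℤ) - 1 := ⟨_, rfl⟩
  obtain ⟨hN3, hN2⟩ := hu
  have hu' : RegU u := ⟨hN3, hN2⟩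
  rw [← hN] at hN3 hN2
  obtain ⟨s, hs⟩ : ∃ s : Fin 3, (N ^ 2) *ᵥ (Pi.single s 1 : Fin 3 → ℤ) ≠ 0 := by
    by_contra h
    push Not at h
    apply hN2
    ext i j
    have h1 := congrFun (h j) i
    rw [mulVec_single_one] at h1
    exact h1
  obtain ⟨d, v, x, hd, hdv, hx⟩ := REG_prim hs
  have hv : v ∈ FixV u := by
    rw [REG_sub, ← hN]
    have h1 : N *ᵥ (d • v) = 0 := by
      rw [← hdv, mulVec_mulVec, ← pow_succ', hN3, zero_mulVec]
    rw [mulVec_smul] at h1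
    exact (smul_eq_zero.1 h1).resolve_left hd
  have hv0 : v ≠ 0 := by
    rintro rfl
    rw [dotProduct_zero] at hx
    exact zero_ne_one hx
  refine ⟨v, x, hx, fun w => ⟨fun hw => ?_, ?_⟩, fun f hf => ?_⟩
  · obtain ⟨a, b, ha, hab⟩ := not_indep hv0 (fun h => REG_dep hu' hw hv h)
    have h1 : a * (x ⬝ᵥ w) = b := by
      have h2 := congrArg (fun z => x ⬝ᵥ z) hab
      simp only [dotProduct_smul, hx, smul_eq_mul, mul_one] at h2
      exact h2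
    refine ⟨x ⬝ᵥ w, ?_⟩
    rw [← h1, mul_smul] at hab
    exact smul_right_injective _ ha hab
  · rintro ⟨a, rfl⟩
    have h1 : (u : Matrix (Fin 3) (Fin 3) ℤ) *ᵥ v = v := hv
    show (u : Matrix (Fin 3) (Fin 3) ℤ) *ᵥ (a • v) = a • v
    rw [mulVec_smul, h1]
  · have h1 : d * (f ⬝ᵥ v) = 0 := by
      have h2 : f ⬝ᵥ (d • v) = 0 := by
        rw [← hdv, pow_two, ← mulVec_mulVec, dotProduct_mulVec, hN, REG_subR hf, zero_dotProduct]
      rw [dotProduct_smul, smul_eq_mul] at h2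
      exact h2
    exact (mul_eq_zero.1 h1).resolve_left hd

theorem REG_tr {u : SLZ 3} (hu : RegU u) : RegU u.transpose := by
  have h1 : ∀ k : ℕ, ((u.transpose : Matrix (Fin 3) (Fin 3) ℤ) - 1) ^ k = (((u : Matrix (Fin 3) (Fin 3) ℤ) - 1) ^ k)ᵀ := by
    intro k
    rw [transpose_pow, transpose_sub, transpose_one]
    rfl
  refine ⟨by rw [h1, hu.1, transpose_zero], fun h => hu.2 ?_⟩
  rw [h1] at h
  rw [← transpose_transpose (((u : Matrix (Fin 3) (Fin 3) ℤ) - 1) ^ 2), h, transpose_zero]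

theorem REG_fix (u : SLZ 3) (f : Fin 3 → ℤ) : f ∈ FixV u.transpose ↔ f ∈ FixR u := by
  show (u : Matrix (Fin 3) (Fin 3) ℤ)ᵀ *ᵥ f = f ↔ f ᵥ* (u : Matrix (Fin 3) (Fin 3) ℤ) = f
  rw [mulVec_transpose]

theorem REG : REG_stmt := by
  intro u hu
  obtain ⟨v, x, hx, hv, hfv⟩ := REG_col hu
  obtain ⟨f, y, hy, hf, _⟩ := REG_col (REG_tr hu)
  have hfR : f ∈ FixR u := (REG_fix u f).1 ((hf f).2 ⟨1, (one_smul _ _).symm⟩)
  exact ⟨v, f, x, y, hx, hy, hfv f hfR, hv, fun g => (REG_fix u g).symm.trans (hf g)⟩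

end Pool.Agent.FO
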