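import Pool.Agent.helper35.FO.Spec

/-!
# Row fo:STP (MP_a2a22c_al)
-/

set_option autoImplicit false

namespace Pool.Agent.FO

open Matrix Pool.Agent.H48SL Pool.Agent.UG Pool.Agent.LV

/-- the matrix `1 + a X + c Y + w Z` -/
def STP_M (X Z Y : MQ 3) (a c w : ℚ) : MQ 3 := 1 + a • X + c • Y + w • Z

theorem STP_mul {X Z Y : MQ 3} {δ δ' : ℚ} (h : Trip X Z Y δ δ') (a₁ c₁ w₁ a₂ c₂ w₂ : ℚ) :
    STP_M X Z Y a₁ c₁ w₁ * STP_M X Z Y a₂ c₂ w₂ =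
      STP_M X Z Y (a₁ + a₂) (c₁ + c₂) (w₁ + w₂ + a₁ * c₂ * δ + c₁ * a₂ * δ') := by
  obtain ⟨hXX, hYY, hZZ, hXZ, hZX, hYZ, hZY, hXY, hYX⟩ := h
  unfold STP_M
  simp only [mul_add, add_mul, mul_one, one_mul, smul_mul_assoc, mul_smul_comm, hXX, hYY, hZZ, hXZ, hZX, hYZ, hZY, hXY,
    hYX, smul_zero, add_zero, smul_smul]
  module

theorem STP_one (X Z Y : MQ 3) : STP_M X Z Y 0 0 0 = 1 := by
  unfold STP_M
  simp

theorem STP_pow {S : Set (MQ 3)} (hS : IsGrp S) {X Z Y : MQ 3} {δ δ' : ℚ} (h : Trip X Z Y δ δ') {a c e : ℚ}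
    (hu : STP_M X Z Y a c e ∈ S) (m : ℤ) :
    STP_M X Z Y (m * a) (m * c) (m * e + m * (m - 1) / 2 * (a * c * (δ + δ'))) ∈ S := by
  have hnat : ∀ k : ℕ, STP_M X Z Y (k * a) (k * c) (k * e + k * (k - 1) / 2 * (a * c * (δ + δ'))) ∈ S := by
    intro k
    induction k with
    | zero =>
      have h1 : STP_M X Z Y (((0 : ℕ) : ℚ) * a) (((0 : ℕ) : ℚ) * c)
          (((0 : ℕ) : ℚ) * e + ((0 : ℕ) : ℚ) * (((0 : ℕ) : ℚ) - 1) / 2 * (a * c * (δ + δ'))) = STP_M X Z Y 0 0 0 := by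
        congr 1 <;> push_cast <;> ring
      rw [h1, STP_one]
      exact hS.1
    | succ k ih =>
      have h1 := hS.2.1 _ ih _ hu
      rw [STP_mul h] at h1
      have h2 : STP_M X Z Y (((k + 1 : ℕ) : ℚ) * a) (((k + 1 : ℕ) : ℚ) * c)
          (((k + 1 : ℕ) : ℚ) * e + ((k + 1 : ℕ) : ℚ) * (((k + 1 : ℕ) : ℚ) - 1) / 2 * (a * c * (δ + δ'))) =
          STP_M X Z Y (k * a + a) (k * c + c)
            (k * e + k * (k - 1) / 2 * (a * c * (δ + δ')) + e + k * a * c * δ + k * c * a * δ') := by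
        congr 1 <;> push_cast <;> ring
      rw [h2]
      exact h1
  obtain ⟨k, rfl | rfl⟩ := Int.eq_nat_or_neg m
  · have h1 := hnat k
    exact_mod_cast h1
  · obtain ⟨B, hB, hAB, hBA⟩ := hS.2.2 _ (hnat k)
    have h1 := STP_mul h (k * a) (k * c) (k * e + k * (k - 1) / 2 * (a * c * (δ + δ')))
      (((-(k : ℤ) : ℤ) : ℚ) * a) (((-(k : ℤ) : ℤ) : ℚ) * c)
      (((-(k : ℤ) : ℤ) : ℚ) * e + ((-(k : ℤ) : ℤ) : ℚ) * (((-(k : ℤ) : ℤ) : ℚ) - 1) / 2 * (a * c * (δ + δ')))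
    have h2 : STP_M X Z Y (k * a + ((-(k : ℤ) : ℤ) : ℚ) * a) (k * c + ((-(k : ℤ) : ℤ) : ℚ) * c)
        (k * e + k * (k - 1) / 2 * (a * c * (δ + δ')) +
          (((-(k : ℤ) : ℤ) : ℚ) * e + ((-(k : ℤ) : ℤ) : ℚ) * (((-(k : ℤ) : ℤ) : ℚ) - 1) / 2 * (a * c * (δ + δ'))) +
          k * a * (((-(k : ℤ) : ℤ) : ℚ) * c) * δ + k * c * (((-(k : ℤ) : ℤ) : ℚ) * a) * δ') = STP_M X Z Y 0 0 0 := by
      congr 1 <;> push_cast <;> ring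
    rw [h2, STP_one] at h1
    have h3 : B = STP_M X Z Y (((-(k : ℤ) : ℤ) : ℚ) * a) (((-(k : ℤ) : ℤ) : ℚ) * c)
      (((-(k : ℤ) : ℤ) : ℚ) * e + ((-(k : ℤ) : ℤ) : ℚ) * (((-(k : ℤ) : ℤ) : ℚ) - 1) / 2 * (a * c * (δ + δ'))) := by
      rw [← mul_one B, ← h1, ← mul_assoc, hBA, one_mul]
    rw [← h3]
    exact hB

theorem STP : STP_stmt := by
  intro S hS X Z Y δ δ' hT a c e ha hu m r y hr
  refine ⟨_, STP_pow hS hT hu m, ?_⟩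
  have hx : ∀ s : ℚ, tx X s = STP_M X Z Y s 0 0 := by intro s; unfold tx STP_M; simp
  have hy : ∀ s : ℚ, tx Y s = STP_M X Z Y 0 s 0 := by intro s; unfold tx STP_M; simp
  have hz : ∀ s : ℚ, tx Z s = STP_M X Z Y 0 0 s := by intro s; unfold tx STP_M; simp
  rw [hx, hz, hy, hz, STP_mul hT, STP_mul hT, STP_mul hT]
  subst hr
  congr 1 <;> field_simp <;> ring

end Pool.Agent.FO
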