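import Pool.Agent.helper35.FO.Spec
import Pool.Agent.helper35.LV.L3A

/-!
# Row fo:UF (MP_a2a22c_al): the form of a regular unipotent
-/

set_option autoImplicit false

namespace Pool.Agent.FO

open Matrix Pool.Agent.H48SL Pool.Agent.UG Pool.Agent.LV

theorem UF_cr_ne {v w : Fin 3 → ℤ} (h : Indep v w) : L3A_cr v w ≠ 0 := by
  intro h0
  obtain ⟨r, hr⟩ := Function.ne_iff.1 h.ne_left
  have h1 := congrFun h0 0
  have h2 := congrFun h0 1
  have h3 := congrFun h0 2
  simp only [L3A_cr, Matrix.cons_val_zero, Matrix.cons_val_one, Matrix.cons_val, Pi.zero_apply] at h1 h2 h3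
  have key : ∀ p s : Fin 3, w p * v s - v p * w s = 0 := by
    intro p s
    fin_cases p <;> fin_cases s <;> simp only [Fin.zero_eta, Fin.mk_one, Fin.reduceFinMk] <;> linarith
  have h4 := (h (w r) (-(v r)) (by
    funext s
    simp only [Pi.add_apply, Pi.smul_apply, smul_eq_mul, Pi.zero_apply]
    have := key r s
    linarith)).2
  exact hr (by simpa using h4)

/-- the matrix with three given columns -/
def UF_B (V W Z : Fin 3 → ℚ) : MQ 3 := Matrix.of fun i j => ![V i, W i, Z i] j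

theorem UF_B_mul (V W Z y : Fin 3 → ℚ) : UF_B V W Z *ᵥ y = y 0 • V + y 1 • W + y 2 • Z := by
  funext i
  simp only [UF_B, mulVec, dotProduct, Matrix.of_apply, Fin.sum_univ_three, Matrix.cons_val_zero, Matrix.cons_val_one,
    Matrix.cons_val, Pi.add_apply, Pi.smul_apply, smul_eq_mul]
  ring

theorem UF_B_det (v w : Fin 3 → ℤ) (Z : Fin 3 → ℚ) :
    (UF_B (castV v) (castV w) Z).det = castV (L3A_cr v w) ⬝ᵥ Z := by
  rw [Matrix.det_fin_three]
  simp only [UF_B, Matrix.of_apply, Matrix.cons_val_zero, Matrix.cons_val_one, Matrix.cons_val, castV, L3A_cr,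
    dotProduct, Fin.sum_univ_three]
  push_cast
  ring

theorem UF_ext {M : MQ 3} (h : ∀ x : Fin 3 → ℚ, M *ᵥ x = 0) : M = 0 := by
  ext i j
  have h1 := congrFun (h (Pi.single j 1)) i
  rw [mulVec_single_one] at h1
  exact h1

theorem UF_nil {u : SLZ 3} (h : RegU u) : (qg u - 1) ^ 3 = 0 ∧ (qg u - 1) ^ 2 ≠ 0 := by
  have h1 : ∀ k : ℕ, (qg u - 1) ^ k = (Int.castRingHom ℚ).mapMatrix (((u : Matrix (Fin 3) (Fin 3) ℤ) - 1) ^ k) := by
    intro k
    rw [map_pow, map_sub, map_one]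
    rfl
  constructor
  · rw [h1, h.1, map_zero]
  · rw [h1]
    intro h2
    apply h.2
    ext i j
    have h3 := congrFun (congrFun h2 i) j
    exact Int.cast_injective (α := ℚ) (h3.trans (Int.cast_zero).symm)

theorem UF : UF_stmt := by
  intro u v w f g hu hv hf hv0 hf0 hfv hfw hgv hvw hfg
  obtain ⟨hN3, hN2⟩ := UF_nil hu
  obtain ⟨N, hN⟩ : ∃ N, N = qg u - 1 := ⟨_, rfl⟩
  rw [← hN] at hN3 hN2
  have hNV : N *ᵥ castV v = 0 := by
    have h1 : (u : Matrix (Fin 3) (Fin 3) ℤ) *ᵥ v = v := hv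
    rw [hN, sub_mulVec, one_mulVec, qg_mulVec_castV, h1, sub_self]
  have hFN : castV f ᵥ* N = 0 := by
    have h1 : f ᵥ* (u : Matrix (Fin 3) (Fin 3) ℤ) = f := hf
    rw [hN, vecMul_sub, vecMul_one, castV_vecMul_qg, h1, sub_self]
  have hFV : castV f ⬝ᵥ castV v = 0 := by rw [castV_dot, hfv]; rfl
  have hFW : castV f ⬝ᵥ castV w = 0 := by rw [castV_dot, hfw]; rfl
  have hGV : castV g ⬝ᵥ castV v = 0 := by rw [castV_dot, hgv]; rfl
  have hFF : castV f ⬝ᵥ castV f ≠ 0 := by
    rw [castV_dot]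
    exact_mod_cast (L3A_self hf0).ne'
  have hc := UF_cr_ne hvw
  obtain ⟨k, hk⟩ := L3A_prop v w hc (castV f) hFV hFW
  have hdet : (UF_B (castV v) (castV w) (castV f)).det ≠ 0 := by
    rw [UF_B_det]
    intro h0
    apply hFF
    nth_rewrite 1 [hk]
    rw [smul_dotProduct, h0, smul_zero]
  -- coordinates
  have surj : ∀ x : Fin 3 → ℚ, ∃ y : Fin 3 → ℚ, x = y 0 • castV v + y 1 • castV w + y 2 • castV f := by
    intro x
    refine ⟨(UF_B (castV v) (castV w) (castV f))⁻¹ *ᵥ x, ?_⟩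
    rw [← UF_B_mul, mulVec_mulVec, Matrix.mul_nonsing_inv _ (isUnit_iff_ne_zero.2 hdet), one_mulVec]
  have ker : ∀ x : Fin 3 → ℚ, castV f ⬝ᵥ x = 0 → ∃ p q : ℚ, x = p • castV v + q • castV w := by
    intro x hx
    obtain ⟨y, hy⟩ := surj x
    have h1 : y 2 = 0 := by
      rw [hy, dotProduct_add, dotProduct_add, dotProduct_smul, dotProduct_smul, dotProduct_smul, hFV, hFW, smul_zero,
        smul_zero, add_zero, zero_add, smul_eq_mul] at hx
      exact (mul_eq_zero.1 hx).resolve_right hFF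
    exact ⟨y 0, y 1, by rw [hy, h1, zero_smul, add_zero]⟩
  have ind : ∀ p q : ℚ, p • castV v + q • castV w = 0 → q = 0 := by
    intro p q h
    have h1 : UF_B (castV v) (castV w) (castV f) *ᵥ ![p, q, 0] = 0 := by
      rw [UF_B_mul]
      simpa using h
    have h2 := Matrix.eq_zero_of_mulVec_eq_zero hdet h1
    exact congrFun h2 1
  have hFNx : ∀ x : Fin 3 → ℚ, castV f ⬝ᵥ (N *ᵥ x) = 0 := by
    intro x
    rw [dotProduct_mulVec, hFN, zero_dotProduct]
  obtain ⟨p, q, hNW⟩ := ker (N *ᵥ castV w) (hFNx _)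
  have hq : q = 0 := by
    by_contra hq
    have h1 : N *ᵥ (N *ᵥ castV w) = q • (N *ᵥ castV w) := by
      conv_lhs => rw [hNW]
      rw [mulVec_add, mulVec_smul, mulVec_smul, hNV, smul_zero, zero_add]
    have h2 : N *ᵥ (N *ᵥ (N *ᵥ castV w)) = 0 := by
      rw [mulVec_mulVec, mulVec_mulVec]
      have h3 : N * N * N = 0 := by
        rw [← hN3, pow_succ, pow_two]
      rw [h3, zero_mulVec]
    rw [h1, mulVec_smul, h1, smul_smul] at h2
    rcases smul_eq_zero.1 h2 with h3 | h3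
    · exact hq (mul_self_eq_zero.1 h3)
    · rw [hNW] at h3
      exact hq (ind p q h3)
  subst hq
  rw [zero_smul, add_zero] at hNW
  obtain ⟨t, s, hNZ⟩ := ker (N *ᵥ castV f) (hFNx _)
  have hsp : s * p ≠ 0 := by
    intro h0
    apply hN2
    apply UF_ext
    intro x
    obtain ⟨y, hy⟩ := surj x
    rw [pow_two, ← mulVec_mulVec, hy]
    simp only [mulVec_add, mulVec_smul, hNV, hNW, hNZ, smul_zero, zero_add, add_zero, smul_smul]
    rw [h0, mul_zero, zero_smul]
  have hs : s ≠ 0 := left_ne_zero_of_mul hsp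
  have hp : p ≠ 0 := right_ne_zero_of_mul hsp
  have hGW : castV g ⬝ᵥ castV w ≠ 0 := by
    intro h0
    obtain ⟨k', hk'⟩ := L3A_prop v w hc (castV g) hGV h0
    obtain ⟨r, hr⟩ := Function.ne_iff.1 hf0
    have h1 : ∀ i : Fin 3, g r * f i = f r * g i := by
      intro i
      have e1 := congrFun hk r
      have e2 := congrFun hk i
      have e3 := congrFun hk' r
      have e4 := congrFun hk' i
      simp only [castV, Pi.smul_apply, smul_eq_mul] at e1 e2 e3 e4
      have e5 : (g r : ℚ) * f i = f r * g i := by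
        rw [e1, e2, e3, e4]
        ring
      exact_mod_cast e5
    have h2 := (hfg (g r) (-(f r)) (by
      funext i
      simp only [Pi.add_apply, Pi.smul_apply, smul_eq_mul, Pi.zero_apply]
      have := h1 i
      linarith)).2
    exact hr (by simpa using h2)
  refine ⟨s / (castV f ⬝ᵥ castV f), p / (castV g ⬝ᵥ castV w),
    (t - p / (castV g ⬝ᵥ castV w) * (castV g ⬝ᵥ castV f)) / (castV f ⬝ᵥ castV f), div_ne_zero hs hFF, div_ne_zero hp hGW, ?_⟩
  have h1 : qg u = 1 + N := by rw [hN]; abel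
  rw [h1, add_assoc, add_assoc, add_right_inj, ← sub_eq_zero]
  apply UF_ext
  intro x
  obtain ⟨y, hy⟩ := surj x
  rw [hy]
  simp only [sub_mulVec, add_mulVec, mulVec_add, mulVec_smul, smul_mulVec, L3A_vv, hNV, hNW, hNZ, hFV, hFW, hGV,
    zero_smul, smul_zero, zero_add, add_zero]
  funext i
  simp only [Pi.add_apply, Pi.sub_apply, Pi.smul_apply, smul_eq_mul, Pi.zero_apply]
  field_simp
  ring

end Pool.Agent.FO
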