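import Pool.Agent.helper35.FO.Gen
import Pool.Agent.helper35.FO.REG
import Pool.Agent.helper35.FO.UF
import Pool.Agent.helper35.FO.STP
import Pool.Agent.helper35.FO.HXG
import Pool.Agent.helper35.FO.CLW
import Pool.Agent.helper35.LV.Prof
import Pool.Agent.helper53.LV.FCQ
import Pool.Agent.helper16.FO.CYC
import Pool.Agent.helper72.FO.POT
import Pool.Agent.helper72.FO.ACY
import Pool.Agent.helper89.FO.WLK
import Pool.Agent.helper7.FO.FCT
import Pool.Agent.helper7.FO.HOM
import Pool.Agent.helper7.FO.ABF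
import Pool.Agent.helper71.FO.INV
import Pool.Agent.helper71.FO.TREE
import Pool.Agent.helper71.FO.PAR
import Pool.Agent.helper21.FO.PFC

/-!
# Project fo (MP_a2a22c_al): the forest theorem, assembly.
-/

set_option autoImplicit false

namespace Pool.Agent.FO

open Matrix Pool.Agent.H48SL Pool.Agent.UG Pool.Agent.LV

theorem tCLW : CLW_stmt := CLW STP HXG
theorem tCYC : CYC_stmt := CYC FCQ UF tCLW
theorem tINV : INV_stmt := INV POT
theorem tTREE : TREE_stmt := TREE FCT tINV
theorem tHOM : HOM_stmt := HOM ABF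
theorem tPFC : PFC_stmt := PFC Pool.Agent.PR.tLONE
theorem tACY : ACY_stmt := ACY REG WLK tCYC
theorem tFIN : FIN_stmt := FIN REG tACY tTREE tHOM PAR

end Pool.Agent.FO
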