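import Pool.Agent.helper35.FO.Gen

/-!
# Project fo (MP_a2a22c_al): the example `SL(3, ℤ)`
-/

set_option autoImplicit false

namespace Pool.Agent.FO

open Matrix Pool.Agent.H48SL Pool.Agent.UG Pool.Agent.LV

/-- a regular unipotent element -/
def EXM_u : SLZ 3 := ⟨!![1, 1, 0; 0, 1, 1; 0, 0, 1], by
  rw [Matrix.det_fin_three]
  simp⟩

theorem EXM_reg : RegU EXM_u := by
  constructor
  · show (!![1, 1, 0; 0, 1, 1; 0, 0, 1] - 1 : Matrix (Fin 3) (Fin 3) ℤ) ^ 3 = 0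
    decide
  · show (!![1, 1, 0; 0, 1, 1; 0, 0, 1] - 1 : Matrix (Fin 3) (Fin 3) ℤ) ^ 2 ≠ 0
    decide

/-- the elements which fix the first basis column or the last basis row -/
def EXM_S : Set (SLZ 3) :=
  {s | (s : Matrix (Fin 3) (Fin 3) ℤ) *ᵥ Pi.single 0 1 = Pi.single 0 1 ∨
    Pi.single 2 1 ᵥ* (s : Matrix (Fin 3) (Fin 3) ℤ) = Pi.single 2 1}

theorem EXM_closure : Subgroup.closure EXM_S = ⊤ := by
  rw [eq_top_iff, ← ES_univ, ES, Subgroup.closure_le]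
  rintro g ⟨i, _, j, _, hij, c, rfl⟩
  have h1 : ∀ (i j : Fin 3) (c : ℤ), i ≠ j → (j ≠ 0 ∨ i ≠ 2) → xe i j c ∈ EXM_S := by
    intro i j c hij h
    rcases h with h | h
    · left
      rw [xe_mulVec hij]
      simp [h.symm]
    · right
      unfold xe
      rw [tv_vecMul (single_dot hij c)]
      simp [h]
  by_cases h : j ≠ 0 ∨ i ≠ 2
  · exact Subgroup.subset_closure (h1 i j c hij h)
  · push Not at h
    obtain ⟨rfl, rfl⟩ := h
    have h2 : xe 2 1 c ∈ Subgroup.closure EXM_S :=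
      Subgroup.subset_closure (h1 2 1 c (by decide) (Or.inl (by decide)))
    have h3 : xe 1 0 1 ∈ Subgroup.closure EXM_S :=
      Subgroup.subset_closure (h1 1 0 1 (by decide) (Or.inr (by decide)))
    have h4 := xe_commutator (ι := Fin 3) (i := 2) (l := 1) (j := 0) (by decide) (by decide) (by decide) c
    rw [← h4]
    exact Subgroup.mul_mem _ (Subgroup.mul_mem _ (Subgroup.mul_mem _ h2 h3) (Subgroup.inv_mem _ h2))
      (Subgroup.inv_mem _ h3)

theorem EXM_chain : ∀ s ∈ EXM_S, Chain ⊤ EXM_u (s * EXM_u * s⁻¹) := by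
  intro s hs
  refine Relation.ReflTransGen.single ⟨Subgroup.mem_top _, Subgroup.mem_top _, EXM_reg, FIN_RegU_conj EXM_reg s, ?_⟩
  have hu1 : (Pi.single 0 1 : Fin 3 → ℤ) ∈ FixV EXM_u := by
    show !![1, 1, 0; 0, 1, 1; 0, 0, 1] *ᵥ (Pi.single 0 1 : Fin 3 → ℤ) = Pi.single 0 1
    decide
  have hu2 : (Pi.single 2 1 : Fin 3 → ℤ) ∈ FixR EXM_u := by
    show (Pi.single 2 1 : Fin 3 → ℤ) ᵥ* !![1, 1, 0; 0, 1, 1; 0, 0, 1] = Pi.single 2 1
    decide
  rcases hs with h | h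
  · refine Or.inl ⟨Pi.single 0 1, by decide, hu1, ?_⟩
    rw [FIN_FixV_conj]
    exact ⟨Pi.single 0 1, hu1, h⟩
  · refine Or.inr ⟨Pi.single 2 1, by decide, hu2, ?_⟩
    rw [FIN_FixR_conj]
    refine ⟨Pi.single 2 1, hu2, ?_⟩
    have h5 := FIN_vm_inv s (Pi.single 2 1 : Fin 3 → ℤ)
    rw [h] at h5
    exact h5

end Pool.Agent.FO
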