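import Pool.Agent.helper35.FO.Spec

/-!
# Row fo:FIN (MP_a2a22c_al)
-/

set_option autoImplicit false

namespace Pool.Agent.FO

open Matrix Pool.Agent.H48SL Pool.Agent.UG Pool.Agent.LV

/-! #### fixed columns and rows -/

theorem FIN_FixV_conj (g u : SLZ 3) :
    FixV (g * u * g⁻¹) = (fun v => (g : Matrix (Fin 3) (Fin 3) ℤ) *ᵥ v) '' FixV u := by
  ext v
  constructor
  · intro hv
    refine ⟨((g⁻¹ : SLZ 3) : Matrix (Fin 3) (Fin 3) ℤ) *ᵥ v, ?_, mv_inv_right g v⟩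
    have h1 : ((g * u * g⁻¹ : SLZ 3) : Matrix (Fin 3) (Fin 3) ℤ) *ᵥ v = v := hv
    rw [mv_mul, mv_mul] at h1
    show (u : Matrix (Fin 3) (Fin 3) ℤ) *ᵥ (((g⁻¹ : SLZ 3) : Matrix (Fin 3) (Fin 3) ℤ) *ᵥ v) =
      ((g⁻¹ : SLZ 3) : Matrix (Fin 3) (Fin 3) ℤ) *ᵥ v
    have h2 := congrArg (fun w => ((g⁻¹ : SLZ 3) : Matrix (Fin 3) (Fin 3) ℤ) *ᵥ w) h1
    simp only [mv_inv_left] at h2
    exact h2
  · rintro ⟨w, hw, rfl⟩
    have h1 : (u : Matrix (Fin 3) (Fin 3) ℤ) *ᵥ w = w := hw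
    show ((g * u * g⁻¹ : SLZ 3) : Matrix (Fin 3) (Fin 3) ℤ) *ᵥ ((g : Matrix (Fin 3) (Fin 3) ℤ) *ᵥ w) =
      (g : Matrix (Fin 3) (Fin 3) ℤ) *ᵥ w
    rw [mv_mul, mv_mul, mv_inv_left, h1]

theorem FIN_vm_mul (a b : SLZ 3) (f : Fin 3 → ℤ) :
    f ᵥ* ((a * b : SLZ 3) : Matrix (Fin 3) (Fin 3) ℤ) =
      (f ᵥ* (a : Matrix (Fin 3) (Fin 3) ℤ)) ᵥ* (b : Matrix (Fin 3) (Fin 3) ℤ) := by
  rw [Matrix.SpecialLinearGroup.coe_mul, vecMul_vecMul]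

theorem FIN_vm_one (f : Fin 3 → ℤ) : f ᵥ* ((1 : SLZ 3) : Matrix (Fin 3) (Fin 3) ℤ) = f := by
  rw [Matrix.SpecialLinearGroup.coe_one, vecMul_one]

theorem FIN_vm_inv (g : SLZ 3) (f : Fin 3 → ℤ) :
    (f ᵥ* (g : Matrix (Fin 3) (Fin 3) ℤ)) ᵥ* ((g⁻¹ : SLZ 3) : Matrix (Fin 3) (Fin 3) ℤ) = f := by
  rw [← FIN_vm_mul, mul_inv_cancel, FIN_vm_one]

theorem FIN_vm_inv' (g : SLZ 3) (f : Fin 3 → ℤ) :
    (f ᵥ* ((g⁻¹ : SLZ 3) : Matrix (Fin 3) (Fin 3) ℤ)) ᵥ* (g : Matrix (Fin 3) (Fin 3) ℤ) = f := by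
  rw [← FIN_vm_mul, inv_mul_cancel, FIN_vm_one]

theorem FIN_FixR_conj (g u : SLZ 3) :
    FixR (g * u * g⁻¹) = (fun f => f ᵥ* ((g⁻¹ : SLZ 3) : Matrix (Fin 3) (Fin 3) ℤ)) '' FixR u := by
  ext f
  constructor
  · intro hf
    refine ⟨f ᵥ* (g : Matrix (Fin 3) (Fin 3) ℤ), ?_, FIN_vm_inv g f⟩
    have h1 : f ᵥ* ((g * u * g⁻¹ : SLZ 3) : Matrix (Fin 3) (Fin 3) ℤ) = f := hf
    rw [FIN_vm_mul, FIN_vm_mul] at h1
    show (f ᵥ* (g : Matrix (Fin 3) (Fin 3) ℤ)) ᵥ* (u : Matrix (Fin 3) (Fin 3) ℤ) = f ᵥ* (g : Matrix (Fin 3) (Fin 3) ℤ)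
    have h2 := congrArg (fun w => w ᵥ* (g : Matrix (Fin 3) (Fin 3) ℤ)) h1
    simp only [FIN_vm_inv'] at h2
    exact h2
  · rintro ⟨w, hw, rfl⟩
    have h1 : w ᵥ* (u : Matrix (Fin 3) (Fin 3) ℤ) = w := hw
    show (w ᵥ* ((g⁻¹ : SLZ 3) : Matrix (Fin 3) (Fin 3) ℤ)) ᵥ* ((g * u * g⁻¹ : SLZ 3) : Matrix (Fin 3) (Fin 3) ℤ) =
      w ᵥ* ((g⁻¹ : SLZ 3) : Matrix (Fin 3) (Fin 3) ℤ)
    rw [FIN_vm_mul, FIN_vm_mul, FIN_vm_inv', h1]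

theorem FIN_RegU_conj {u : SLZ 3} (h : RegU u) (g : SLZ 3) : RegU (g * u * g⁻¹) := by
  have h0 : (g : Matrix (Fin 3) (Fin 3) ℤ) * ((g⁻¹ : SLZ 3) : Matrix (Fin 3) (Fin 3) ℤ) = 1 := by
    rw [← Matrix.SpecialLinearGroup.coe_mul, mul_inv_cancel, Matrix.SpecialLinearGroup.coe_one]
  have h0' : ((g⁻¹ : SLZ 3) : Matrix (Fin 3) (Fin 3) ℤ) * (g : Matrix (Fin 3) (Fin 3) ℤ) = 1 := by
    rw [← Matrix.SpecialLinearGroup.coe_mul, inv_mul_cancel, Matrix.SpecialLinearGroup.coe_one]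
  have h1 : ((g * u * g⁻¹ : SLZ 3) : Matrix (Fin 3) (Fin 3) ℤ) - 1 =
      (g : Matrix (Fin 3) (Fin 3) ℤ) * ((u : Matrix (Fin 3) (Fin 3) ℤ) - 1) *
        ((g⁻¹ : SLZ 3) : Matrix (Fin 3) (Fin 3) ℤ) := by
    rw [Matrix.SpecialLinearGroup.coe_mul, Matrix.SpecialLinearGroup.coe_mul, mul_sub, sub_mul, mul_one, h0]
  have h2 : ∀ k : ℕ, (((g * u * g⁻¹ : SLZ 3) : Matrix (Fin 3) (Fin 3) ℤ) - 1) ^ k =
      (g : Matrix (Fin 3) (Fin 3) ℤ) * (((u : Matrix (Fin 3) (Fin 3) ℤ) - 1) ^ k) *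
        ((g⁻¹ : SLZ 3) : Matrix (Fin 3) (Fin 3) ℤ) := by
    intro k
    induction k with
    | zero => rw [pow_zero, pow_zero, mul_one, h0]
    | succ k ih =>
      rw [pow_succ, ih, h1, pow_succ]
      simp only [mul_assoc]
      rw [← mul_assoc ((g⁻¹ : SLZ 3) : Matrix (Fin 3) (Fin 3) ℤ) (g : Matrix (Fin 3) (Fin 3) ℤ), h0', one_mul]
  refine ⟨by rw [h2, h.1, mul_zero, zero_mul], fun h3 => h.2 ?_⟩
  rw [h2] at h3
  have h4 := congrArg (fun M => ((g⁻¹ : SLZ 3) : Matrix (Fin 3) (Fin 3) ℤ) * M * (g : Matrix (Fin 3) (Fin 3) ℤ)) h3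
  simp only [mul_zero, zero_mul, mul_assoc] at h4
  rw [h0', mul_one, ← mul_assoc, h0', one_mul] at h4
  exact h4

theorem FIN_Link_conj {a b : SLZ 3} (h : Link a b) (g : SLZ 3) : Link (g * a * g⁻¹) (g * b * g⁻¹) := by
  rcases h with ⟨v, hv, h1, h2⟩ | ⟨f, hf, h1, h2⟩
  · refine Or.inl ⟨(g : Matrix (Fin 3) (Fin 3) ℤ) *ᵥ v, ?_, ?_, ?_⟩
    · intro h0
      apply hv
      rw [← mv_inv_left g v, h0, mulVec_zero]
    · rw [FIN_FixV_conj]; exact ⟨v, h1, rfl⟩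
    · rw [FIN_FixV_conj]; exact ⟨v, h2, rfl⟩
  · refine Or.inr ⟨f ᵥ* ((g⁻¹ : SLZ 3) : Matrix (Fin 3) (Fin 3) ℤ), ?_, ?_, ?_⟩
    · intro h0
      apply hf
      rw [← FIN_vm_inv' g f, h0, zero_vecMul]
    · rw [FIN_FixR_conj]; exact ⟨f, h1, rfl⟩
    · rw [FIN_FixR_conj]; exact ⟨f, h2, rfl⟩

theorem FIN_Chain_conj {H : Subgroup (SLZ 3)} {g : SLZ 3} (hg : g ∈ H) {a b : SLZ 3} (h : Chain H a b) :
    Chain H (g * a * g⁻¹) (g * b * g⁻¹) := by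
  induction h with
  | refl => exact Relation.ReflTransGen.refl
  | tail _ h2 ih =>
    refine ih.tail ⟨?_, ?_, FIN_RegU_conj h2.2.2.1 g, FIN_RegU_conj h2.2.2.2.1 g, FIN_Link_conj h2.2.2.2.2 g⟩
    · exact H.mul_mem (H.mul_mem hg h2.1) (H.inv_mem hg)
    · exact H.mul_mem (H.mul_mem hg h2.2.1) (H.inv_mem hg)

/-- linked regular unipotents have the same fixed columns or the same fixed rows -/
theorem FIN_Link_eq (hREG : REG_stmt) {a b : SLZ 3} (ha : RegU a) (hb : RegU b) (h : Link a b) :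
    FixV a = FixV b ∨ FixR a = FixR b := by
  obtain ⟨va, fa, _, _, _, _, _, hVa, hRa⟩ := hREG a ha
  obtain ⟨vb, fb, _, _, _, _, _, hVb, hRb⟩ := hREG b hb
  have key : ∀ (a b : SLZ 3) (va : Fin 3 → ℤ), (∀ w, w ∈ FixV a ↔ ∃ t : ℤ, w = t • va) →
      (∃ v : Fin 3 → ℤ, v ≠ 0 ∧ v ∈ FixV a ∧ v ∈ FixV b) → FixV a ⊆ FixV b := by
    rintro a b va hVa ⟨v, hv, h1, h2⟩ w hw
    obtain ⟨t, rfl⟩ := (hVa v).1 h1
    obtain ⟨s, rfl⟩ := (hVa w).1 hw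
    have ht : t ≠ 0 := by
      rintro rfl
      exact hv (zero_smul _ _)
    have h3 : (b : Matrix (Fin 3) (Fin 3) ℤ) *ᵥ (t • va) = t • va := h2
    rw [mulVec_smul] at h3
    have h4 : (b : Matrix (Fin 3) (Fin 3) ℤ) *ᵥ va = va := smul_right_injective _ ht h3
    show (b : Matrix (Fin 3) (Fin 3) ℤ) *ᵥ (s • va) = s • va
    rw [mulVec_smul, h4]
  have keyR : ∀ (a b : SLZ 3) (fa : Fin 3 → ℤ), (∀ w, w ∈ FixR a ↔ ∃ t : ℤ, w = t • fa) →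
      (∃ v : Fin 3 → ℤ, v ≠ 0 ∧ v ∈ FixR a ∧ v ∈ FixR b) → FixR a ⊆ FixR b := by
    rintro a b va hVa ⟨v, hv, h1, h2⟩ w hw
    obtain ⟨t, rfl⟩ := (hVa v).1 h1
    obtain ⟨s, rfl⟩ := (hVa w).1 hw
    have ht : t ≠ 0 := by
      rintro rfl
      exact hv (zero_smul _ _)
    have h3 : (t • va) ᵥ* (b : Matrix (Fin 3) (Fin 3) ℤ) = t • va := h2
    rw [smul_vecMul] at h3
    have h4 : va ᵥ* (b : Matrix (Fin 3) (Fin 3) ℤ) = va := smul_right_injective _ ht h3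
    show (s • va) ᵥ* (b : Matrix (Fin 3) (Fin 3) ℤ) = s • va
    rw [smul_vecMul, h4]
  rcases h with ⟨v, hv, h1, h2⟩ | ⟨f, hf, h1, h2⟩
  · exact Or.inl (Set.Subset.antisymm (key a b va hVa ⟨v, hv, h1, h2⟩) (key b a vb hVb ⟨v, hv, h2, h1⟩))
  · exact Or.inr (Set.Subset.antisymm (keyR a b fa hRa ⟨f, hf, h1, h2⟩) (keyR b a fb hRb ⟨f, hf, h2, h1⟩))

/-! #### the actions -/

/-- sets of columns -/
structure FIN_V where
  /-- the set -/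
  val : Set (Fin 3 → ℤ)

/-- sets of rows -/
structure FIN_W where
  /-- the set -/
  val : Set (Fin 3 → ℤ)

theorem FIN_V_ext {A B : FIN_V} (h : A.val = B.val) : A = B := by
  cases A; cases B; cases h; rfl

theorem FIN_W_ext {A B : FIN_W} (h : A.val = B.val) : A = B := by
  cases A; cases B; cases h; rfl

instance : MulAction (SLZ 3) FIN_V where
  smul g A := ⟨(fun v => (g : Matrix (Fin 3) (Fin 3) ℤ) *ᵥ v) '' A.val⟩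
  one_smul A := by
    apply FIN_V_ext
    show (fun v => ((1 : SLZ 3) : Matrix (Fin 3) (Fin 3) ℤ) *ᵥ v) '' A.val = A.val
    simp only [mv_one, Set.image_id']
  mul_smul a b A := by
    apply FIN_V_ext
    show (fun v => ((a * b : SLZ 3) : Matrix (Fin 3) (Fin 3) ℤ) *ᵥ v) '' A.val =
      (fun v => (a : Matrix (Fin 3) (Fin 3) ℤ) *ᵥ v) '' ((fun v => (b : Matrix (Fin 3) (Fin 3) ℤ) *ᵥ v) '' A.val)
    rw [Set.image_image]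
    simp only [mv_mul]

instance : MulAction (SLZ 3) FIN_W where
  smul g A := ⟨(fun f => f ᵥ* ((g⁻¹ : SLZ 3) : Matrix (Fin 3) (Fin 3) ℤ)) '' A.val⟩
  one_smul A := by
    apply FIN_W_ext
    show (fun f => f ᵥ* (((1 : SLZ 3)⁻¹ : SLZ 3) : Matrix (Fin 3) (Fin 3) ℤ)) '' A.val = A.val
    simp only [inv_one, FIN_vm_one, Set.image_id']
  mul_smul a b A := by
    apply FIN_W_ext
    show (fun f => f ᵥ* (((a * b)⁻¹ : SLZ 3) : Matrix (Fin 3) (Fin 3) ℤ)) '' A.val =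
      (fun f => f ᵥ* ((a⁻¹ : SLZ 3) : Matrix (Fin 3) (Fin 3) ℤ)) ''
        ((fun f => f ᵥ* ((b⁻¹ : SLZ 3) : Matrix (Fin 3) (Fin 3) ℤ)) '' A.val)
    rw [Set.image_image]
    simp only [_root_.mul_inv_rev, FIN_vm_mul]

theorem FIN_smulV (g : SLZ 3) (A : FIN_V) :
    (g • A).val = (fun v => (g : Matrix (Fin 3) (Fin 3) ℤ) *ᵥ v) '' A.val := rfl

theorem FIN_smulW (g : SLZ 3) (A : FIN_W) :
    (g • A).val = (fun f => f ᵥ* ((g⁻¹ : SLZ 3) : Matrix (Fin 3) (Fin 3) ℤ)) '' A.val := rfl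

/-- the flags linked to `u` -/
def FIN_E (H : Subgroup (SLZ 3)) (u : SLZ 3) : Type :=
  {x : FIN_V × FIN_W // ∃ u' : SLZ 3, u' ∈ H ∧ RegU u' ∧ Chain H u u' ∧ x = (⟨FixV u'⟩, ⟨FixR u'⟩)}

/-- `G` acts on the flags linked to `u` -/
@[reducible] def FIN_act (H : Subgroup (SLZ 3)) (u : SLZ 3) (G : Subgroup (SLZ 3)) (hG : G ≤ H)
    (hch : ∀ g ∈ G, Chain H u (g * u * g⁻¹)) : MulAction G (FIN_E H u) where
  smul g x := ⟨((g : SLZ 3) • x.1.1, (g : SLZ 3) • x.1.2), by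
    obtain ⟨u', h1, h2, h3, h4⟩ := x.2
    refine ⟨(g : SLZ 3) * u' * (g : SLZ 3)⁻¹, ?_, FIN_RegU_conj h2 g, ?_, ?_⟩
    · exact H.mul_mem (H.mul_mem (hG g.2) h1) (H.inv_mem (hG g.2))
    · exact Relation.ReflTransGen.trans (hch g g.2) (FIN_Chain_conj (hG g.2) h3)
    · rw [h4, FIN_FixV_conj, FIN_FixR_conj]
      rfl⟩
  one_smul x := by
    apply Subtype.ext
    show (((1 : SLZ 3)) • x.1.1, ((1 : SLZ 3)) • x.1.2) = x.1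
    rw [one_smul, one_smul]
  mul_smul a b x := by
    apply Subtype.ext
    show (((a : SLZ 3) * (b : SLZ 3)) • x.1.1, ((a : SLZ 3) * (b : SLZ 3)) • x.1.2) =
      ((a : SLZ 3) • ((b : SLZ 3) • x.1.1), (a : SLZ 3) • ((b : SLZ 3) • x.1.2))
    rw [mul_smul, mul_smul]

theorem FIN_pow_p {p : ℕ} {g : SLZ 3} (hg : g ∈ Cong (Fin 3) p) : g ^ p ∈ Cong (Fin 3) (p ^ 2) := by
  obtain ⟨B, hB⟩ := mem_Cong.1 hg
  have h1 : ∀ k : ℕ, ∃ B' : Matrix (Fin 3) (Fin 3) ℤ, ((g ^ k : SLZ 3) : Matrix (Fin 3) (Fin 3) ℤ) =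
      1 + ((k : ℤ) * (p : ℤ)) • B + ((p : ℤ) ^ 2) • B' := by
    intro k
    induction k with
    | zero => exact ⟨0, by simp⟩
    | succ k ih =>
      obtain ⟨B', hB'⟩ := ih
      refine ⟨(k : ℤ) • (B * B) + B' + (p : ℤ) • (B' * B), ?_⟩
      rw [pow_succ, Matrix.SpecialLinearGroup.coe_mul, hB', hB]
      simp only [mul_add, add_mul, mul_one, one_mul, smul_mul_assoc, mul_smul_comm, smul_smul, smul_add]
      push_cast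
      module
  obtain ⟨B', hB'⟩ := h1 p
  refine mem_Cong.2 ⟨B + B', ?_⟩
  rw [hB']
  push_cast
  module

theorem FIN_pm {v : Fin 3 → ℤ} {A : Set (Fin 3 → ℤ)} (hA : ∀ w, w ∈ A ↔ ∃ t : ℤ, w = t • v)
    (φ ψ : (Fin 3 → ℤ) → (Fin 3 → ℤ)) (hφ : ∀ t : ℤ, φ (t • v) = t • φ v) (hψ : ∀ t : ℤ, ψ (t • v) = t • ψ v)
    (h0 : φ v ≠ 0) (h : φ '' A = ψ '' A) : ∃ a : ℤ, (a = 1 ∨ a = -1) ∧ φ v = a • ψ v := by
  have hv : v ∈ A := (hA v).2 ⟨1, (one_smul _ _).symm⟩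
  obtain ⟨w, hw, hw'⟩ : φ v ∈ ψ '' A := h ▸ Set.mem_image_of_mem φ hv
  obtain ⟨w2, hw2, hw2'⟩ : ψ v ∈ φ '' A := h ▸ Set.mem_image_of_mem ψ hv
  obtain ⟨a, rfl⟩ := (hA w).1 hw
  obtain ⟨b, rfl⟩ := (hA w2).1 hw2
  rw [hψ] at hw'
  rw [hφ] at hw2'
  refine ⟨a, ?_, hw'.symm⟩
  rw [← hw2', smul_smul] at hw'
  have h1 : (a * b - 1) • φ v = 0 := by rw [sub_smul, one_smul, hw', sub_self]
  rcases smul_eq_zero.1 h1 with h2 | h2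
  · exact Int.eq_one_or_neg_one_of_mul_eq_one (by linarith : a * b = 1)
  · exact absurd h2 h0

theorem FIN_ne {v x : Fin 3 → ℤ} (h : x ⬝ᵥ v = 1) : v ≠ 0 := by
  rintro rfl
  rw [dotProduct_zero] at h
  exact zero_ne_one h

theorem FIN_mv_ne (g : SLZ 3) {v : Fin 3 → ℤ} (h : v ≠ 0) : (g : Matrix (Fin 3) (Fin 3) ℤ) *ᵥ v ≠ 0 := by
  intro h0
  apply h
  rw [← mv_inv_left g v, h0, mulVec_zero]

/-- inverse transpose -/
def FIN_th : SLZ 3 →* SLZ 3 where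
  toFun g := (g.transpose)⁻¹
  map_one' := by
    have h1 : (1 : SLZ 3).transpose = 1 := by
      apply Subtype.ext
      show ((1 : SLZ 3) : Matrix (Fin 3) (Fin 3) ℤ)ᵀ = ((1 : SLZ 3) : Matrix (Fin 3) (Fin 3) ℤ)
      rw [Matrix.SpecialLinearGroup.coe_one, transpose_one]
    rw [h1, inv_one]
  map_mul' a b := by
    have h1 : (a * b).transpose = b.transpose * a.transpose := by
      apply Subtype.ext
      show ((a * b : SLZ 3) : Matrix (Fin 3) (Fin 3) ℤ)ᵀ = _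
      rw [Matrix.SpecialLinearGroup.coe_mul, transpose_mul, Matrix.SpecialLinearGroup.coe_mul]
      rfl
    rw [h1, _root_.mul_inv_rev]

theorem FIN_tr_inv (g : SLZ 3) : (g.transpose)⁻¹ = (g⁻¹).transpose := by
  have h1 : (g⁻¹).transpose * g.transpose = 1 := by
    apply Subtype.ext
    show (((g⁻¹).transpose * g.transpose : SLZ 3) : Matrix (Fin 3) (Fin 3) ℤ) = ((1 : SLZ 3) : Matrix (Fin 3) (Fin 3) ℤ)
    rw [Matrix.SpecialLinearGroup.coe_mul]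
    show ((g⁻¹ : SLZ 3) : Matrix (Fin 3) (Fin 3) ℤ)ᵀ * (g : Matrix (Fin 3) (Fin 3) ℤ)ᵀ = _
    rw [← transpose_mul, ← Matrix.SpecialLinearGroup.coe_mul, mul_inv_cancel, Matrix.SpecialLinearGroup.coe_one,
      transpose_one]
  exact (eq_inv_of_mul_eq_one_left h1).symm

theorem FIN_th_mv (g : SLZ 3) (f : Fin 3 → ℤ) :
    ((FIN_th g : SLZ 3) : Matrix (Fin 3) (Fin 3) ℤ) *ᵥ f = f ᵥ* ((g⁻¹ : SLZ 3) : Matrix (Fin 3) (Fin 3) ℤ) := by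
  show (((g.transpose)⁻¹ : SLZ 3) : Matrix (Fin 3) (Fin 3) ℤ) *ᵥ f = _
  rw [FIN_tr_inv]
  show ((g⁻¹ : SLZ 3) : Matrix (Fin 3) (Fin 3) ℤ)ᵀ *ᵥ f = _
  rw [mulVec_transpose]

theorem FIN_th_th (g : SLZ 3) : FIN_th (FIN_th g) = g := by
  show (((g.transpose)⁻¹).transpose)⁻¹ = g
  rw [FIN_tr_inv, inv_inv]
  apply Subtype.ext
  show (g : Matrix (Fin 3) (Fin 3) ℤ)ᵀᵀ = _
  rw [transpose_transpose]

theorem FIN_th_cong {g : SLZ 3} {m : ℕ} (h : g ∈ Cong (Fin 3) m) : FIN_th g ∈ Cong (Fin 3) m := by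
  show (g.transpose)⁻¹ ∈ Cong (Fin 3) m
  apply Subgroup.inv_mem
  obtain ⟨B, hB⟩ := mem_Cong.1 h
  refine mem_Cong.2 ⟨Bᵀ, ?_⟩
  show (g : Matrix (Fin 3) (Fin 3) ℤ)ᵀ = _
  rw [hB, transpose_add, transpose_one, transpose_smul]

/-- the two cases of the theorem on trees are impossible: columns -/
theorem FIN_col (hPAR : PAR_stmt) (H D : Subgroup (SLZ 3)) (m p : ℕ) (hm : m ≠ 0) (hp : p.Prime) (hp2 : p ≠ 2)
    (hpm : ¬ p ∣ m) (hP : ∀ (m : ℕ), m ≠ 0 → ∀ g : SLZ 3, ∃ h ∈ H, g⁻¹ * h ∈ Cong (Fin 3) m)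
    (hD : H ⊓ Cong (Fin 3) m ≤ D) (v x : Fin 3 → ℤ) (hx : x ⬝ᵥ v = 1) (A : Set (Fin 3 → ℤ))
    (hA : ∀ w, w ∈ A ↔ ∃ t : ℤ, w = t • v)
    (h : ∀ g ∈ D ⊓ Cong (Fin 3) p, ∃ n ∈ Cong (Fin 3) (p ^ 2),
      (fun w => (g : Matrix (Fin 3) (Fin 3) ℤ) *ᵥ w) '' A = (fun w => (n : Matrix (Fin 3) (Fin 3) ℤ) *ᵥ w) '' A) :
    False := by
  refine hPAR H D m p hm hp hp2 hpm hP hD v x hx ?_
  intro g hg
  obtain ⟨n, hn, he⟩ := h g hg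
  obtain ⟨a, ha, hga⟩ := FIN_pm hA (fun w => (g : Matrix (Fin 3) (Fin 3) ℤ) *ᵥ w)
    (fun w => (n : Matrix (Fin 3) (Fin 3) ℤ) *ᵥ w) (fun t => mulVec_smul _ _ _) (fun t => mulVec_smul _ _ _)
    (FIN_mv_ne g (FIN_ne hx)) he
  exact ⟨n, hn, a, ha, hga⟩

/-- rows -/
theorem FIN_row (hPAR : PAR_stmt) (H D : Subgroup (SLZ 3)) (m p : ℕ) (hm : m ≠ 0) (hp : p.Prime) (hp2 : p ≠ 2)
    (hpm : ¬ p ∣ m) (hP : ∀ (m : ℕ), m ≠ 0 → ∀ g : SLZ 3, ∃ h ∈ H, g⁻¹ * h ∈ Cong (Fin 3) m)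
    (hD : H ⊓ Cong (Fin 3) m ≤ D) (v x : Fin 3 → ℤ) (hx : x ⬝ᵥ v = 1) (A : Set (Fin 3 → ℤ))
    (hA : ∀ w, w ∈ A ↔ ∃ t : ℤ, w = t • v)
    (h : ∀ g ∈ D ⊓ Cong (Fin 3) p, ∃ n ∈ Cong (Fin 3) (p ^ 2),
      (fun w => w ᵥ* ((g⁻¹ : SLZ 3) : Matrix (Fin 3) (Fin 3) ℤ)) '' A =
        (fun w => w ᵥ* ((n⁻¹ : SLZ 3) : Matrix (Fin 3) (Fin 3) ℤ)) '' A) :
    False := by
  refine FIN_col hPAR (H.map FIN_th) (D.map FIN_th) m p hm hp hp2 hpm ?_ ?_ v x hx A hA ?_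
  · intro m' hm' g
    obtain ⟨h', hh', hc⟩ := hP m' hm' (FIN_th g)
    refine ⟨FIN_th h', ⟨h', hh', rfl⟩, ?_⟩
    have h1 := FIN_th_cong hc
    rwa [map_mul, map_inv, FIN_th_th] at h1
  · rintro g ⟨⟨g₀, hg₀, rfl⟩, hg2⟩
    have h1 := FIN_th_cong hg2
    rw [FIN_th_th] at h1
    exact ⟨g₀, hD ⟨hg₀, h1⟩, rfl⟩
  · rintro g ⟨⟨g₀, hg₀, rfl⟩, hg2⟩
    have h1 := FIN_th_cong hg2
    rw [FIN_th_th] at h1
    obtain ⟨n, hn, he⟩ := h g₀ ⟨hg₀, h1⟩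
    refine ⟨FIN_th n, FIN_th_cong hn, ?_⟩
    simp only [FIN_th_mv]
    exact he

theorem FIN (hREG : REG_stmt) (hACY : ACY_stmt) (hTREE : TREE_stmt) (hHOM : HOM_stmt) (hPAR : PAR_stmt) :
    FIN_stmt := by
  intro H hFG hZ hP hC u hu hru D hDH hDi hch
  by_contra hnf
  obtain ⟨m, hm, hmD⟩ := hC D hDH hDi
  obtain ⟨p, hpge, hp⟩ := Nat.exists_infinite_primes (m + 3)
  have hp2 : p ≠ 2 := by omega
  have hpm : ¬ p ∣ m := fun h => by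
    have := Nat.le_of_dvd (Nat.pos_of_ne_zero hm) h
    omega
  have hp0 : p ≠ 0 := by omega
  have hp20 : p ^ 2 ≠ 0 := pow_ne_zero 2 hp0
  obtain ⟨G, hG⟩ : ∃ G : Subgroup (SLZ 3), G = D ⊓ Cong (Fin 3) p := ⟨_, rfl⟩
  have hG1 : G ≤ D ⊓ Cong (Fin 3) p := hG.le
  have hG2 : D ⊓ Cong (Fin 3) p ≤ G := hG.ge
  have hGH : G ≤ H := hG1.trans (inf_le_left.trans hDH)
  have hGch : ∀ g ∈ G, Chain H u (g * u * g⁻¹) := fun g hg => hch g (hG1 hg).1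
  let act : MulAction G (FIN_E H u) := FIN_act H u G hGH hGch
  have hnorm : (Cong (Fin 3) (p ^ 2)).Normal := by unfold Cong; infer_instance
  have hfi : (Cong (Fin 3) (p ^ 2)).FiniteIndex := cong_finiteIndex _ hp20
  obtain ⟨N, hN⟩ : ∃ N : Subgroup G, N = (Cong (Fin 3) (p ^ 2)).subgroupOf G := ⟨_, rfl⟩
  have hNn : N.Normal := by rw [hN]; infer_instance
  have hNf : N.FiniteIndex := by rw [hN]; infer_instance
  have hCC : Cong (Fin 3) (p ^ 2) ≤ Cong (Fin 3) p := by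
    intro g hg
    obtain ⟨B, hB⟩ := mem_Cong.1 hg
    refine mem_Cong.2 ⟨(p : ℤ) • B, ?_⟩
    rw [hB, smul_smul]
    push_cast
    rw [pow_two]
  -- the element chosen for an edge
  have hch' : ∀ e : FIN_E H u, ∃ u' : SLZ 3, u' ∈ H ∧ RegU u' ∧ Chain H u u' ∧ e.1 = (⟨FixV u'⟩, ⟨FixR u'⟩) :=
    fun e => e.2
  choose U hUH hUR hUC hUe using hch'
  have hconn : ∀ b : SLZ 3, Chain H u b → ∀ e : FIN_E H u, e.1 = (⟨FixV b⟩, ⟨FixR b⟩) →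
      Relation.ReflTransGen (fun a b : FIN_E H u => a.1.1 = b.1.1 ∨ a.1.2 = b.1.2)
        ⟨(⟨FixV u⟩, ⟨FixR u⟩), u, hu, hru, Relation.ReflTransGen.refl, rfl⟩ e := by
    intro b hb
    induction hb with
    | refl =>
      intro e he
      have h1 : e = ⟨(⟨FixV u⟩, ⟨FixR u⟩), u, hu, hru, Relation.ReflTransGen.refl, rfl⟩ := Subtype.ext he
      subst h1
      exact Relation.ReflTransGen.refl
    | @tail b c h1 h2 ih =>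
      intro e he
      have h3 := ih ⟨(⟨FixV b⟩, ⟨FixR b⟩), b, h2.1, h2.2.2.1, h1, rfl⟩ rfl
      refine h3.tail ?_
      show (⟨FixV b⟩ : FIN_V) = e.1.1 ∨ (⟨FixR b⟩ : FIN_W) = e.1.2
      rw [he]
      rcases FIN_Link_eq hREG h2.2.2.1 h2.2.2.2.1 h2.2.2.2.2 with h4 | h4
      · exact Or.inl (by rw [h4])
      · exact Or.inr (by rw [h4])
  have hacy : ∀ c : FIN_E H u →₀ ℚ, c.mapDomain (fun e : FIN_E H u => e.1.1) = 0 →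
      c.mapDomain (fun e : FIN_E H u => e.1.2) = 0 → c = 0 := by
    intro c h1 h2
    refine hACY H hZ hnf (FIN_E H u) U (fun e => ⟨hUH e, hUR e⟩) ?_ c ?_ ?_
    · intro e e' h3 h4
      apply Subtype.ext
      rw [hUe e, hUe e', h3, h4]
    · have h3 : (fun e : FIN_E H u => FixV (U e)) = (fun A : FIN_V => A.val) ∘ (fun e : FIN_E H u => e.1.1) := by
        funext e
        show FixV (U e) = e.1.1.val
        rw [hUe e]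
      rw [h3, Finsupp.mapDomain_comp, h1, Finsupp.mapDomain_zero]
    · have h3 : (fun e : FIN_E H u => FixR (U e)) = (fun A : FIN_W => A.val) ∘ (fun e : FIN_E H u => e.1.2) := by
        funext e
        show FixR (U e) = e.1.2.val
        rw [hUe e]
      rw [h3, Finsupp.mapDomain_comp, h2, Finsupp.mapDomain_zero]
  have hhom : ∀ f : G → ℚ, (∀ a ∈ N, ∀ b ∈ N, f (a * b) = f a + f b) → ∀ a ∈ N, f a = 0 := by
    classical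
    intro f hf a ha
    have hN0 : ∀ x : SLZ 3, x ∈ D ⊓ Cong (Fin 3) (p ^ 2) → ∃ h : x ∈ G, (⟨x, h⟩ : G) ∈ N := by
      intro x hx
      have h1 : x ∈ G := hG2 ⟨hx.1, hCC hx.2⟩
      refine ⟨h1, ?_⟩
      rw [hN]
      exact Subgroup.mem_subgroupOf.2 hx.2
    have h1 := hHOM H hFG hP hC (D ⊓ Cong (Fin 3) (p ^ 2)) (inf_le_left.trans hDH) ?_
      (fun x => if h : x ∈ G then f ⟨x, h⟩ else 0) ?_ a ?_
    · simpa using h1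
    · exact Subgroup.relIndex_inf_ne_zero hDi
        (by
          have h2 : ((Cong (Fin 3) (p ^ 2)).subgroupOf H).FiniteIndex := inferInstance
          exact h2.index_ne_zero)
    · intro x hx y hy
      obtain ⟨h2, h3⟩ := hN0 x hx
      obtain ⟨h4, h5⟩ := hN0 y hy
      have h6 : x * y ∈ G := G.mul_mem h2 h4
      simp only [dif_pos h2, dif_pos h4, dif_pos h6]
      exact hf ⟨x, h2⟩ h3 ⟨y, h4⟩ h5
    · refine ⟨(hG1 a.2).1, ?_⟩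
      rw [hN] at ha
      exact Subgroup.mem_subgroupOf.1 ha
  have hpow : ∀ g : G, ∃ k : ℕ, g ^ (p ^ k) ∈ N := by
    intro g
    refine ⟨1, ?_⟩
    rw [hN, pow_one]
    exact Subgroup.mem_subgroupOf.2 (FIN_pow_p (hG1 g.2).2)
  have htree := hTREE G (FIN_E H u) FIN_V FIN_W (fun e => e.1.1) (fun e => e.1.2)
    (fun g e => rfl) (fun g e => rfl) ⟨(⟨FixV u⟩, ⟨FixR u⟩), u, hu, hru, Relation.ReflTransGen.refl, rfl⟩
    (fun e => hconn (U e) (hUC e) e (hUe e)) hacy N hNn hNf hhom p hp hpow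
  rcases htree with ⟨e, he⟩ | ⟨e, he⟩
  · obtain ⟨v, f, x, y, hx, hy, _, hV, hR⟩ := hREG (U e) (hUR e)
    refine FIN_col hPAR H D m p hm hp hp2 hpm hP hmD v x hx (FixV (U e)) hV ?_
    intro g hg
    obtain ⟨n, hn, h1⟩ := he ⟨g, hG2 hg⟩
    refine ⟨n, by rw [hN] at hn; exact Subgroup.mem_subgroupOf.1 hn, ?_⟩
    have h2 : (g • e.1.1 : FIN_V) = (n : SLZ 3) • e.1.1 := h1
    have h3 := congrArg FIN_V.val h2
    rw [FIN_smulV, FIN_smulV, hUe e] at h3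
    exact h3
  · obtain ⟨v, f, x, y, hx, hy, _, hV, hR⟩ := hREG (U e) (hUR e)
    refine FIN_row hPAR H D m p hm hp hp2 hpm hP hmD f y hy (FixR (U e)) hR ?_
    intro g hg
    obtain ⟨n, hn, h1⟩ := he ⟨g, hG2 hg⟩
    refine ⟨n, by rw [hN] at hn; exact Subgroup.mem_subgroupOf.1 hn, ?_⟩
    have h2 : (g • e.1.2 : FIN_W) = (n : SLZ 3) • e.1.2 := h1
    have h3 := congrArg FIN_W.val h2
    rw [FIN_smulW, FIN_smulW, hUe e] at h3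
    exact h3

end Pool.Agent.FO
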