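import Pool.Agent.helper35.LV.Spec
import Pool.Agent.helper48.PR.SpecL

/-!
# Project fo (MP_a2a22c_al), n = 3: the FOREST THEOREM. Statements of the rows, with complete proofs in the docstrings.

A row XX is a file `Pool/Agent/<seat>/FO/XX.lean` which imports `Pool.Agent.helper35.FO.Spec` (and what is named in the row),
namespace `Pool.Agent.FO`, `open Matrix Pool.Agent.H48SL Pool.Agent.UG Pool.Agent.LV`, with the theorem given in the lock note
(other rows only as hypotheses, auxiliary lemmas with the prefix `XX_`).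
Library: as for project lv (header of `Pool/Agent/helper35/LV/Spec.lean`); `mv_mul`, `mv_one`, `mv_inv_left`, `mv_inv_right`, `IsGrp`,
`Rel`, `AB` are in that file.

THEOREM. Let `H ≤ SL(3, ℤ)` be Zariski dense. A regular unipotent `u` (`(u - 1)^3 = 0`, `(u - 1)^2 ≠ 0`) fixes one flag
(line, plane) of `ℚ³`. (A) If `H` has infinite index, the flags of the regular unipotents of `H` are the edges of a FOREST in
the Tits building of `SL(3, ℚ)` (row CYC: a closed walk without backtracking gives two independent transvections of `H` with the same centre).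
(B) Let moreover `H` be the image of a finitely generated residually finite group whose finite quotients are quotients of
`SL(3, ℤ)`. Then `H` is profinitely dense with the congruence subgroup property, and no finite index subgroup has an
infinite abelian quotient (HOM). If a subgroup `Δ` of finite index preserved a component of the forest, a tree, then the finite
`p`-group `(Δ ∩ Γ(p)) / (Δ ∩ Γ(p²))` would act on a finite tree (TREE), hence fix a vertex: a vertex stabiliser would be mapped onto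
`Γ(p) / Γ(p²)`, and it is reducible (PAR). So `H = SL(3, ℤ)`.
-/

set_option autoImplicit false

namespace Pool.Agent.FO

open Matrix Pool.Agent.H48SL Pool.Agent.UG Pool.Agent.LV

/-! ### Regular unipotents -/

/-- `u` is a regular unipotent element -/
def RegU (u : SLZ 3) : Prop :=
  ((u : Matrix (Fin 3) (Fin 3) ℤ) - 1) ^ 3 = 0 ∧ ((u : Matrix (Fin 3) (Fin 3) ℤ) - 1) ^ 2 ≠ 0

/-- the columns fixed by `u` -/
def FixV (u : SLZ 3) : Set (Fin 3 → ℤ) := {v | (u : Matrix (Fin 3) (Fin 3) ℤ) *ᵥ v = v}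

/-- the rows fixed by `u` -/
def FixR (u : SLZ 3) : Set (Fin 3 → ℤ) := {f | f ᵥ* (u : Matrix (Fin 3) (Fin 3) ℤ) = f}

/-- `u` and `u'` have a common nonzero fixed column or a common nonzero fixed row -/
def Link (u u' : SLZ 3) : Prop :=
  (∃ v : Fin 3 → ℤ, v ≠ 0 ∧ v ∈ FixV u ∧ v ∈ FixV u') ∨ (∃ f : Fin 3 → ℤ, f ≠ 0 ∧ f ∈ FixR u ∧ f ∈ FixR u')

/-- `u` and `u'` are connected by a chain of regular unipotents of `H`, consecutive ones linked -/
def Chain (H : Subgroup (SLZ 3)) : SLZ 3 → SLZ 3 → Prop :=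
  Relation.ReflTransGen (fun a b => a ∈ H ∧ b ∈ H ∧ RegU a ∧ RegU b ∧ Link a b)

/-- REG. Structure of regular unipotents. `v` is a primitive fixed column, `f` a primitive fixed row. Proof. `N = u - 1`, `N³ = 0`, `N² ≠ 0`. Some column `v₀ = N² e_s ≠ 0`,
`N v₀ = 0`; divide by the gcd of the entries: `v₀ = d v`, Bezout gives `x` with `x ⬝ᵥ v = 1`, and `N v = 0`. The kernel of `N` over `ℚ` has dimension
one: if `N w = 0` and `v`, `w` were linearly independent then, since `N` maps the image of `N` to ..., use: `N` has rank `≥ 2` (if the rank were `≤ 1`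
then `N = a bᵀ` over `ℚ`, `N² = (b a) N`, `N³ = (b a)² N = 0` gives `b a = 0`, `N² = 0`), so the kernel has dimension `≤ 1`. So every `w` with `N w = 0` is a rational
multiple of `v`, `w = (x ⬝ᵥ w) v`. Rows: the same for the transposed element. `f ⬝ᵥ v = 0`: `d v = N² e_s` and `f N = 0`. -/
def REG_stmt : Prop :=
  ∀ u : SLZ 3, RegU u → ∃ v f x y : Fin 3 → ℤ, x ⬝ᵥ v = 1 ∧ y ⬝ᵥ f = 1 ∧ f ⬝ᵥ v = 0 ∧
    (∀ w, w ∈ FixV u ↔ ∃ a : ℤ, w = a • v) ∧ (∀ g, g ∈ FixR u ↔ ∃ a : ℤ, g = a • f)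

/-- UF. The form of a regular unipotent in terms of the neighbours of its flag. Proof. `N = qg u - 1`, `N v = 0`, `f N = 0`, `N³ = 0 ≠ N²`. Let `z` be a vector with
`f z ≠ 0`; `v, w, z` is a basis of `ℚ³` and `v, w` span `ker f`. `g w ≠ 0` (else `g` vanishes on `v, w`, so it is a multiple of `f`). `N w ∈ ker f`, `N w = p v + q w`,
`N³ w = q² N w = 0`: if `q ≠ 0` then `N w = 0`, `q w = - p v`, a contradiction; so `q = 0`, `N w = p v`. `N z = s w + t v` (`f N z = 0`). `N² z = s p v ≠ 0`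
(as `N²` kills `v` and `w`), so `s, p ≠ 0`. Put `a = s / f z`, `c = p / g w`, `e = (t - c g z) / f z`; both sides agree on `v, w, z`. -/
def UF_stmt : Prop :=
  ∀ (u : SLZ 3) (v w f g : Fin 3 → ℤ), RegU u → v ∈ FixV u → f ∈ FixR u → v ≠ 0 → f ≠ 0 →
    f ⬝ᵥ v = 0 → f ⬝ᵥ w = 0 → g ⬝ᵥ v = 0 → Indep v w → Indep f g →
    ∃ a c e : ℚ, a ≠ 0 ∧ c ≠ 0 ∧ qg u = 1 + a • vecMulVec (castV w) (castV f) +
      c • vecMulVec (castV v) (castV g) + e • vecMulVec (castV v) (castV f)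

/-! ### Closed walks -/

/-- the matrix `1 + r X` -/
def tx (X : MQ 3) (r : ℚ) : MQ 3 := 1 + r • X

/-- three consecutive flags: `X`, `Y` are the outer ones, `Z` the middle one -/
def Trip (X Z Y : MQ 3) (δ δ' : ℚ) : Prop :=
  X * X = 0 ∧ Y * Y = 0 ∧ Z * Z = 0 ∧ X * Z = 0 ∧ Z * X = 0 ∧ Y * Z = 0 ∧ Z * Y = 0 ∧
    X * Y = δ • Z ∧ Y * X = δ' • Z

/-- STP. One step. Proof. `u^m = 1 + m a X + m c Y + w Z` with `w = m e + m(m-1)/2 a c (δ + δ')` is in `S` for `m : ℤ` (induction for `m : ℕ`; the inverse of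
this matrix is the matrix for `-m`: check the product). `tx Y (-m c) * tx Z y' * u^m = 1 + m a X + (y' + w - m² a c δ') Z`, and this is
`tx X (m a) * tx Z y` for `y' = y - w + m² a c δ' = y + (c (δ' - δ) / (2 a)) r² + (c (δ + δ') / 2 - e / a) r`, `r = m a`. -/
def STP_stmt : Prop :=
  ∀ (S : Set (MQ 3)), IsGrp S → ∀ (X Z Y : MQ 3) (δ δ' : ℚ), Trip X Z Y δ δ' → ∀ a c e : ℚ, a ≠ 0 →
    (1 + a • X + c • Y + e • Z) ∈ S → ∀ (m : ℤ) (r y : ℚ), r = m * a →
    Rel S (tx X r * tx Z y)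
      (tx Y (-(c / a) * r) * tx Z (y + c * (δ' - δ) / (2 * a) * r ^ 2 + (c * (δ + δ') / 2 - e / a) * r))

/-- HXG. `HX3` for walks of any length `L ≥ 1`. Proof. As `Pool/Agent/helper43/LV/HX3.lean` (whose lemmas `HX3_deg`, `HX3_zero`, `HX3_den2`, `HX3_van` are for all `t`; import that
file), with `L` in place of `6`: degrees `2 ^ L` and `≤ 2 ^ (L - 1)`. -/
def HXG_stmt : Prop :=
  ∀ (L : ℕ), 1 ≤ L → ∀ (α κ l γ : ℕ → ℚ), (∀ t, α t ≠ 0) → (∀ t, κ t ≠ 0) → (∀ t, γ t ≠ 0) →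
    ∃ D : ℕ, 1 ≤ D ∧
      (∀ (s : ℤ) (t : ℕ), t < L → ∃ m : ℤ, ((AB α κ l t).2).eval ((D : ℚ) * s) = m * γ t) ∧
      ∃ s₁ s₂ : ℤ,
        ((AB α κ l L).1).eval ((D : ℚ) * s₁) * (((AB α κ l L).2).eval ((D : ℚ) * s₂) - D * s₂) ≠
        ((AB α κ l L).1).eval ((D : ℚ) * s₂) * (((AB α κ l L).2).eval ((D : ℚ) * s₁) - D * s₁)

/-- CLW. A closed walk of flags. Proof. For an integer `s` let `(A_t, B_t)` be the values of `AB α κ l t` at `D s`, with `α t = -(c t / a t)`, `κ t = c t (δ' t - δ t) / (2 a t)`,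
`l t = c t (δ t + δ' t) / 2 - e t / a t`, `γ t = a t`. `STP` gives for `t < L` that `tx (X t) B_t * tx (X (t+1)) A_t` and
`tx (X (t+1)) B_(t+1) * tx (X (t+2)) A_(t+1)` are in the same left coset (the two factors commute). So `tx (X 0) (D s) = tx (X 0) B_L * tx (X 1) A_L * C`, `C ∈ S`, i.e.
`tx (X 0) (D s - B_L) * tx (X 1) (- A_L) = C ∈ S`. Take `s = s₁, s₂` of `HXG`. -/
def CLW_stmt : Prop :=
  ∀ (S : Set (MQ 3)), IsGrp S → ∀ (X : ℕ → MQ 3) (δ δ' a c e : ℕ → ℚ),
    (∀ t, Trip (X t) (X (t + 1)) (X (t + 2)) (δ t) (δ' t)) → (∀ t, δ t ≠ δ' t) → (∀ t, a t ≠ 0) →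
    (∀ t, c t ≠ 0) → (∀ t, (1 + a t • X t + c t • X (t + 2) + e t • X (t + 1)) ∈ S) →
    ∀ L : ℕ, 1 ≤ L → X L = X 0 → X (L + 1) = X 1 →
    ∃ r₁ t₁ r₂ t₂ : ℚ, r₁ * t₂ ≠ r₂ * t₁ ∧ tx (X 0) r₁ * tx (X 1) t₁ ∈ S ∧ tx (X 0) r₂ * tx (X 1) t₂ ∈ S

/-- CYC. No closed walk without backtracking (a walk without backtracking with finite range contains one). `P i` are the lines, `Q i` the planes, the flags of the walk are
`(P 0, Q 0), (P 0, Q 1), (P 1, Q 1), (P 1, Q 2), ...`. Proof. The triples `(P i, Q i, Q (i+1))` are in a finite set, so two of them, for `i < i'`, are equal; shift the indices: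
`i = 0`, `L = 2 i'`. `X (2i) = vecMulVec (castV (P i)) (castV (Q i))`, `X (2i+1) = vecMulVec (castV (P i)) (castV (Q (i+1)))` satisfy `Trip` with `(δ, δ') = (Q_i P_(i+1), 0)` for
even `t = 2i` and `(0, Q_(i+2) P_i)` for odd `t`; both numbers are nonzero: if `Q_i P_(i+1) = 0` then `Q_i`, `Q_(i+1)` both vanish on the independent `P_i`, `P_(i+1)`, so they are not `Indep`. Members of `S = {qg h | h ∈ H}`: `UF` for
the flag `(P_i, Q_(i+1))` (`v = P_i`, `w = P_(i+1)`, `f = Q_(i+1)`, `g = Q_i`) and `(P_(i+1), Q_(i+1))` (`v = P_(i+1)`, `w = P_i`, `f = Q_(i+1)`, `g = Q_(i+2)`). `CLW`: `z_j ∈ H`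
with `qg z_j = 1 + P_0 (r_j Q_0 + t_j Q_1)`, `j = 1, 2`. `FCQ` with `z = z_1`, `g = z_2` (`z_2 P_0 = P_0`); `z_2 ^ k = z_1 ^ m` gives
`k (r_2, t_2) = m (r_1, t_1)`. -/
def CYC_stmt : Prop :=
  ∀ H : Subgroup (SLZ 3), ZDense H → ∀ P Q : ℕ → (Fin 3 → ℤ), (Set.range P).Finite → (Set.range Q).Finite →
    (∀ i, Indep (P i) (P (i + 1))) → (∀ i, Indep (Q i) (Q (i + 1))) →
    (∀ i, Q i ⬝ᵥ P i = 0) → (∀ i, Q (i + 1) ⬝ᵥ P i = 0) →
    (∀ i, ∃ u ∈ H, RegU u ∧ P i ∈ FixV u ∧ Q i ∈ FixR u) →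
    (∀ i, ∃ u ∈ H, RegU u ∧ P i ∈ FixV u ∧ Q (i + 1) ∈ FixR u) → H.FiniteIndex

/-! ### Trees (abstract) -/

/-- POT. Potentials. Proof. The linear map `c ↦ (mapDomain S c, mapDomain T c)` from `E →₀ ℚ` to the product is injective, so it has a left inverse `r`. Let `ℓ` be the functional on
`E →₀ ℚ` with `ℓ (single e 1) = γ e`. `α v = ℓ (r (single v 1, 0))`, `β w = - ℓ (r (0, single w 1))`. -/
def POT_stmt : Prop :=
  ∀ (E V W : Type) (S : E → V) (T : E → W),
    (∀ c : E →₀ ℚ, c.mapDomain S = 0 → c.mapDomain T = 0 → c = 0) →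
    ∀ γ : E → ℚ, ∃ (α : V → ℚ) (β : W → ℚ), ∀ e, γ e = α (S e) - β (T e)

/-- WLK. A finitely supported cycle gives a walk without backtracking with finite range. Proof. Let `e ∈ c.support`. `0 = (mapDomain S c) (S e)` is the sum of the `c x` over the `x` in the support with `S x = S e`, so there is
`σ e ≠ e` in the support with `S (σ e) = S e`; similarly `τ e` for `T`. Start with some `e 0` in the support, `e (2i+1) = σ (e (2i))`, `e (2i+2) = τ (e (2i+1))`
(iterate `τ ∘ σ` on the subtype of the support). -/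
def WLK_stmt : Prop :=
  ∀ (E V W : Type) (S : E → V) (T : E → W) (c : E →₀ ℚ), c ≠ 0 → c.mapDomain S = 0 → c.mapDomain T = 0 →
    ∃ e : ℕ → E, (Set.range e).Finite ∧ (∀ i, S (e (2 * i + 1)) = S (e (2 * i)) ∧ e (2 * i + 1) ≠ e (2 * i)) ∧
      ∀ i, T (e (2 * i + 2)) = T (e (2 * i + 1)) ∧ e (2 * i + 2) ≠ e (2 * i + 1)

/-- FCT. A finite `p`-group acting on a finite tree (bipartite, with `E` as the set of edges, `S e ∈ V` and `T e ∈ W` the ends of `e`) fixes a vertex. Proof. The linear map `(α, β) ↦ α ∘ S - β ∘ T` from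
`(V → ℚ) × (W → ℚ)` to `E → ℚ` is onto; its kernel consists of the pairs of constants `(k, k)` (`S`, `T` are onto and `E` is not empty), so it has dimension one. Rank and nullity:
`card V + card W = card E + 1`. If no vertex is fixed by `G` then no edge is fixed. `g ^ (p ^ k)` acts trivially: the images of `G` in the permutation
groups of `V`, `W`, `E` are `p`-groups, so (`IsPGroup.card_modEq_card_fixedPoints` for `(MulAction.toPermHom G V).range` etc.) `card V`, `card W`, `card E` are divisible by `p`, a contradiction. -/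
def FCT_stmt : Prop :=
  ∀ (G E V W : Type) [Group G] [MulAction G E] [MulAction G V] [MulAction G W] [Finite E] [Finite V] [Finite W]
    (S : E → V) (T : E → W), Function.Surjective S → Function.Surjective T →
    (∀ (g : G) (e : E), S (g • e) = g • S e) → (∀ (g : G) (e : E), T (g • e) = g • T e) → Nonempty E →
    ∀ p : ℕ, p.Prime →
    (∀ g : G, ∃ k : ℕ, (∀ e : E, g ^ (p ^ k) • e = e) ∧ (∀ v : V, g ^ (p ^ k) • v = v) ∧
      ∀ w : W, g ^ (p ^ k) • w = w) →
    (∀ γ : E → ℚ, ∃ (α : V → ℚ) (β : W → ℚ), ∀ e, γ e = α (S e) - β (T e)) →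
    (∀ (α : V → ℚ) (β : W → ℚ), (∀ e, α (S e) = β (T e)) → ∀ e e' : E, α (S e) = α (S e')) →
    (∃ v : V, ∀ g : G, g • v = v) ∨ ∃ w : W, ∀ g : G, g • w = w

/-- INV. Invariant potentials. Proof. `α`, `β` from `POT`. For `n ∈ N` and `e : E`: `α (n • S e) - α (S e) = β (n • T e) - β (T e)` since `γ (n • e) = γ e`. The left side depends on `S e` only,
the right side on `T e` only; so along a chain it is constant: it is a number `λ n`. `λ (n n') = (α (n • S (n' • e)) - α (S (n' • e))) + (α (n' • S e) - α (S e)) = λ n + λ n'`.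
So `λ = 0` on `N` (extend `λ` by `0` to `G`), i.e. `α (n • S e) = α (S e)`, `β (n • T e) = β (T e)`. Replace `α` by `0` outside the range of `S`, `β` by `0` outside the range of `T` (both ranges are `G`-invariant). -/
def INV_stmt : Prop :=
  ∀ (G E V W : Type) [Group G] [MulAction G E] [MulAction G V] [MulAction G W] (S : E → V) (T : E → W),
    (∀ (g : G) (e : E), S (g • e) = g • S e) → (∀ (g : G) (e : E), T (g • e) = g • T e) →
    ∀ e₀ : E, (∀ e, Relation.ReflTransGen (fun a b => S a = S b ∨ T a = T b) e₀ e) →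
    (∀ c : E →₀ ℚ, c.mapDomain S = 0 → c.mapDomain T = 0 → c = 0) →
    ∀ N : Subgroup G, (∀ f : G → ℚ, (∀ a ∈ N, ∀ b ∈ N, f (a * b) = f a + f b) → ∀ a ∈ N, f a = 0) →
    ∀ γ : E → ℚ, (∀ n ∈ N, ∀ e, γ (n • e) = γ e) →
    ∃ (α : V → ℚ) (β : W → ℚ), (∀ e, γ e = α (S e) - β (T e)) ∧ (∀ n ∈ N, ∀ v, α (n • v) = α v) ∧
      ∀ n ∈ N, ∀ w, β (n • w) = β w

/-- TREE. Proof. (1) For every `e` there is a finite set `K_e` which contains `e₀` and `e` such that for all sets of values: if `α (S x) = β (T x)` for all `x ∈ K_e` then `α (S x) = α (S e₀)` for all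
`x ∈ K_e` (induction on the chain). Let `K` be the union of the `K_(r • e₀)`, `r` in a finite set of representatives of `G ⧸ N`.
(2) Let `Ē` be the set of all `N`-orbits of the `g • x`, `g ∈ G`, `x ∈ K`, `V̄`, `W̄` the sets of the `N`-orbits of the `g • S x`, `g • T x`: finite sets (`g` may be restricted to representatives) with actions of `G`
(`N` is normal: `g • (N • x) = N • (g • x)`) for which `N` acts trivially, and maps `S̄`, `T̄` which are onto; `g ^ (p ^ k) ∈ N` acts trivially.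
(3) Potentials: for `γ : Ē → ℚ` let `γ' e` be the value of `γ` at the orbit of `e`, or `0` if it is not in `Ē`; `INV` gives invariant `α'`, `β'`, which induce `α`, `β`.
(4) Connectedness: let `α ∘ S̄ = β ∘ T̄` on `Ē`. For `g ∈ G`, (1) for the functions `v ↦ α [g • v]`, `w ↦ β [g • w]` (only their values at the points of `K` matter; put `0` outside) gives
`α [g • S x] = α [g • S e₀]` for `x ∈ K`. For a representative `r` of `g N = N g`: `[g • S e₀] = [r • S e₀] = [S (r • e₀)]`, `r • e₀ ∈ K`, so with `g = 1`: `α [S (r • e₀)] = α [S e₀]`.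
(5) `FCT` gives a fixed vertex `[g₀ • S x]` or `[g₀ • T x]`; take `e = g₀ • x`. -/
def TREE_stmt : Prop :=
  ∀ (G E V W : Type) [Group G] [MulAction G E] [MulAction G V] [MulAction G W] (S : E → V) (T : E → W),
    (∀ (g : G) (e : E), S (g • e) = g • S e) → (∀ (g : G) (e : E), T (g • e) = g • T e) →
    ∀ e₀ : E, (∀ e, Relation.ReflTransGen (fun a b => S a = S b ∨ T a = T b) e₀ e) →
    (∀ c : E →₀ ℚ, c.mapDomain S = 0 → c.mapDomain T = 0 → c = 0) →
    ∀ N : Subgroup G, N.Normal → N.FiniteIndex →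
    (∀ f : G → ℚ, (∀ a ∈ N, ∀ b ∈ N, f (a * b) = f a + f b) → ∀ a ∈ N, f a = 0) →
    ∀ p : ℕ, p.Prime → (∀ g : G, ∃ k : ℕ, g ^ (p ^ k) ∈ N) →
    (∃ e : E, ∀ g : G, ∃ n ∈ N, g • S e = n • S e) ∨ ∃ e : E, ∀ g : G, ∃ n ∈ N, g • T e = n • T e

/-! ### Congruence subgroups -/

/-- ABF. Proof. `NQ (Fin 3) (q²)` has finite index (`NQ_finiteIndex`), so it suffices that it is contained in `C = ⁅Cong, Cong⁆`, which is normal in `SL(3, ℤ)`. Let `tv x (q² φ)` be a generator, `φ x = 0`; `x ≠ 0`, `x = d x'` with `x'`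
primitive, and `g x' = e_0` for some `g` (`euclid` with `S = univ`), so the conjugate is `tv e_0 (q² ψ)`, `ψ_0 = 0`, the product of `tv e_0 (q² ψ_1 e_1)` and `tv e_0 (q² ψ_2 e_2)`;
with `{j, k} = {1, 2}`: `tv e_0 (q² ψ_j e_j) = ⁅tv e_0 (q e_k), tv e_k (q ψ_j e_j)⁆` (see `xe_commutator` in `SLn/Index.lean`). -/
def ABF_stmt : Prop :=
  ∀ q : ℕ, q ≠ 0 → (⁅Cong (Fin 3) q, Cong (Fin 3) q⁆ : Subgroup (SLZ 3)).FiniteIndex

/-- HOM. No homomorphisms to `ℚ`. (`LONE_stmt` of `PR/SpecL.lean`; `hP`, `hC` are its two conclusions in terms of `H`.) Proof. `N` has finite index in the finitely generated `H`, so it is finitely generated and the values of `f` on `N` have a common denominator; so let `f` be integer valued on `N`.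
By `hC` for `N` there is `q ≠ 0` with `H ∩ Γ(q) ⊆ N`. Suppose `f n ≠ 0` for some `n ∈ N`; replace `n` by a power: `n ∈ Γ(q)`. Let `c = |f n|`, `C = ⁅Γ(q), Γ(q)⁆`, `M` its index (`ABF`). `K = {h ∈ N | c (M+1) ∣ f h}` has
finite index in `H`; `hC` for `K` gives `m₂` with `H ∩ Γ(m₂) ⊆ K`; `m = q m₂`. Let `R` be the set of all `x ∈ Γ(q)` for which there is `h ∈ H`, `h = x mod m`, with `c (M+1) ∣ f h` (such `h` is in `H ∩ Γ(q) ⊆ N`). `R` is a subgroup and
contains the commutators of elements `x, y ∈ Γ(q)`: by `hP` there are `h_x, h_y ∈ H` with `h_x = x`, `h_y = y` modulo `m`, and `f ⁅h_x, h_y⁆ = 0`. So `C ≤ R`. Two of the elements `n^0, ..., n^M` are in the same coset of `C`: `n^k ∈ C`,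
`1 ≤ k ≤ M`. Take `h` for `n^k ∈ R`: `h⁻¹ n^k ∈ H ∩ Γ(m) ⊆ K`, so `c (M+1) ∣ f (n^k) = k f n = ± k c`, a contradiction. -/
def HOM_stmt : Prop :=
  ∀ H : Subgroup (SLZ 3), Group.FG H →
    (∀ (m : ℕ), m ≠ 0 → ∀ g : SLZ 3, ∃ h ∈ H, g⁻¹ * h ∈ Cong (Fin 3) m) →
    (∀ K : Subgroup (SLZ 3), K ≤ H → K.relIndex H ≠ 0 → ∃ m : ℕ, m ≠ 0 ∧ H ⊓ Cong (Fin 3) m ≤ K) →
    ∀ N : Subgroup (SLZ 3), N ≤ H → N.relIndex H ≠ 0 →
    ∀ f : SLZ 3 → ℚ, (∀ a ∈ N, ∀ b ∈ N, f (a * b) = f a + f b) → ∀ a ∈ N, f a = 0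

/-- PFC. The two properties of the image. Proof. `Pool.Agent.PR.tLONE` (`helper48/PR/AsmL.lean`) for `H`: profinite density gives an element of `H` in every coset of `Cong (Fin 3) m` (normal of finite index), and the second part of
`LONE` for the subgroup `K.subgroupOf H` gives the second property (`MC m h 1` is `h ∈ Cong (Fin 3) m`, see `mem_Cong`). -/
def PFC_stmt : Prop :=
  ∀ H : Subgroup (SLZ 3), Infinite H → Pool.Agent.PR.QuotLe H (SLZ 3) →
    (∀ (m : ℕ), m ≠ 0 → ∀ g : SLZ 3, ∃ h ∈ H, g⁻¹ * h ∈ Cong (Fin 3) m) ∧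
    ∀ K : Subgroup (SLZ 3), K ≤ H → K.relIndex H ≠ 0 → ∃ m : ℕ, m ≠ 0 ∧ H ⊓ Cong (Fin 3) m ≤ K

/-- PAR. A vertex stabiliser is not mapped onto `Γ(p) / Γ(p²)`. (`D` contains `H ∩ Γ(m)`, `p` is an odd prime which does not divide `m`.) Proof. `x v = 1`, so some `v_s` is not divisible by `p`; let `r ≠ s` and `k` an integer with `m ∣ k`, `k = 1 mod p`, `t = tv e_r (k p e_s)`. By density there is
`g ∈ H`, `g = t mod p² m`. `g ∈ Γ(m)` and `g ∈ Γ(p)`, so `g ∈ D ∩ Γ(p)`. By `hn` there are `n ∈ Γ(p²)` and `a = ± 1` with `g v = a n v`. Modulo `p`: `v = a v`, so `a = 1` (`p` odd, `v_s ≠ 0 mod p`). Modulo `p²`: `g v = v`, but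
`t v = v + k p v_s e_r`, `k v_s ≠ 0 mod p`, a contradiction. -/
def PAR_stmt : Prop :=
  ∀ (H D : Subgroup (SLZ 3)) (m p : ℕ), m ≠ 0 → p.Prime → p ≠ 2 → ¬ p ∣ m →
    (∀ (m : ℕ), m ≠ 0 → ∀ g : SLZ 3, ∃ h ∈ H, g⁻¹ * h ∈ Cong (Fin 3) m) →
    H ⊓ Cong (Fin 3) m ≤ D → ∀ v x : Fin 3 → ℤ, x ⬝ᵥ v = 1 →
    ¬ ∀ g ∈ D ⊓ Cong (Fin 3) p, ∃ n ∈ Cong (Fin 3) (p ^ 2), ∃ a : ℤ, (a = 1 ∨ a = -1) ∧
      (g : Matrix (Fin 3) (Fin 3) ℤ) *ᵥ v = a • ((n : Matrix (Fin 3) (Fin 3) ℤ) *ᵥ v)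

/-! ### The theorem -/

/-- ACY. The flags form a forest. `E` is any set of flags `(FixV u, FixR u)` of regular unipotents of `H` (given by a function `U` on `E`). Proof. If `c ≠ 0`, take the walk `e` of `WLK`. `REG` for `u_i = U (e i)`: `v_i`, `f_i`; choose them as functions of the
sets `FixV`, `FixR`, i.e. there is a function `ρ` on sets with `ρ (FixV u)` a primitive vector `v` for every regular unipotent `u`, and `ρ'` for `FixR`. `P i = ρ (FixV u_(2i))` (`= ρ (FixV u_(2i+1))`), `Q 0 = ρ' (FixR u_0)`, `Q (i+1) = ρ' (FixR u_(2i+1))`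
(`= ρ' (FixR u_(2i+2))`). The ranges are finite. `FixV u_(2i+2) ≠ FixV u_(2i+1)` (otherwise both sets would agree, so `e (2i+2) = e (2i+1)` by injectivity), so `P i` and `P (i+1)` are `Indep` (two primitive vectors which
are not `Indep` are equal up to sign and generate the same group). Similarly for `Q`. `CYC`. -/
def ACY_stmt : Prop :=
  ∀ H : Subgroup (SLZ 3), ZDense H → ¬ H.FiniteIndex → ∀ (E : Type) (U : E → SLZ 3),
    (∀ e, U e ∈ H ∧ RegU (U e)) →
    (∀ e e', FixV (U e) = FixV (U e') → FixR (U e) = FixR (U e') → e = e') →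
    ∀ c : E →₀ ℚ, c.mapDomain (fun e => FixV (U e)) = 0 → c.mapDomain (fun e => FixR (U e)) = 0 → c = 0

/-- FIN. Proof. Suppose that `H` does not have finite index. By `hC` let `m ≠ 0` with `H ∩ Γ(m) ⊆ D`, `p > 2` a prime which does not divide `m`, `G = D ∩ Γ(p)`, `N = D ∩ Γ(p²)` (as a subgroup of `G`): normal, of finite index; `g ^ p ∈ N` for `g ∈ G`
(`(1 + p A)^p = 1 mod p²`). `V = W = Set (Fin 3 → ℤ)` with the actions `g • A = {g v | v ∈ A}` and `g • A = {f g⁻¹ | f ∈ A}` (two type synonyms). `E` = the set of all pairs `(FixV u', FixR u')`, `u' ∈ H` a regular unipotent with `Chain H u u'`; `G` acts, because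
`FixV (g u' g⁻¹) = g • FixV u'`, `FixR (g u' g⁻¹) = g • FixR u'`, and `Chain H u u'` implies `Chain H (g u g⁻¹) (g u' g⁻¹)`, and `Chain H u (g u g⁻¹)` by hypothesis. Connected: from the chains (`Link a b` for regular
unipotents gives `FixV a = FixV b` or `FixR a = FixR b`, by `REG`). `ACY`, `HOM` (for `N`, of finite index in `H`), `TREE`: there is a regular unipotent `u' ∈ H` such that for all `g ∈ G` there is `n ∈ N` with `g • FixV u' = n • FixV u'` (or the same for `FixR`). With `v` of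
`REG`: `g v = n w`, `w = a v`, and `n⁻¹ g` and its inverse preserve `FixV u' = ℤ v`, so `a = ± 1`. This contradicts `PAR`. In the case of `FixR`: `f g⁻¹ = a f n⁻¹`; use `PAR` for the transposed groups, or (simpler) prove the
version of `PAR` for rows in the same way. -/
def FIN_stmt : Prop :=
  ∀ H : Subgroup (SLZ 3), Group.FG H → ZDense H →
    (∀ (m : ℕ), m ≠ 0 → ∀ g : SLZ 3, ∃ h ∈ H, g⁻¹ * h ∈ Cong (Fin 3) m) →
    (∀ K : Subgroup (SLZ 3), K ≤ H → K.relIndex H ≠ 0 → ∃ m : ℕ, m ≠ 0 ∧ H ⊓ Cong (Fin 3) m ≤ K) →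
    ∀ u ∈ H, RegU u → ∀ D : Subgroup (SLZ 3), D ≤ H → D.relIndex H ≠ 0 →
    (∀ g ∈ D, Chain H u (g * u * g⁻¹)) → H.FiniteIndex

end Pool.Agent.FO
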